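import Pool.Agent.K9h49.DN.MainB

/-!
# The learner for unate formulas of small width
-/

namespace Pool.Agent.K9h49.NW

open Pool.Agent.Helper91K9.DL Pool.Agent.K9h49.DN Pool.Agent.NPC

/-- The literals which are biased towards false on the points of `neg` that satisfy `ρ`. -/
def bia (u : ℕ) (neg : List (List Bool)) (ls ρ : List (ℕ × Bool)) : List (ℕ × Bool) :=
  ls.filter fun l => decide (cov neg ρ ≤ u * (cov neg ((l.1, !l.2) :: ρ) - cov neg (l :: ρ)))

/-- The lists of terms before the test for its length. -/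
def nwl (u K m : ℕ) (neg : List (List Bool)) (ls : List (ℕ × Bool))
    (cur : List (List (ℕ × Bool))) : List (List (ℕ × Bool)) :=
  cur ++ (cur.filter fun ρ => decide (m < K * cov neg ρ)).flatMap fun ρ =>
    (bia u neg ls ρ).map (· :: ρ)

/-- One more biased literal. -/
def nstep (u K m B : ℕ) (neg : List (List Bool)) (ls : List (ℕ × Bool))
    (cur : List (List (ℕ × Bool))) : List (List (ℕ × Bool)) :=
  if (nwl u K m neg ls cur).length ≤ B then nwl u K m neg ls cur else cur

/-- The candidates after `j` rounds. -/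
def cdn (u K m B : ℕ) (neg : List (List Bool)) (ls : List (ℕ × Bool)) (j : ℕ) :
    List (List (ℕ × Bool)) :=
  (List.range j).foldl (fun cur _ => nstep u K m B neg ls cur) [[]]

/-- Powers, up to the bound `B`. -/
def cpw (x B k : ℕ) : ℕ := (List.range k).foldl (fun c _ => min (c * x) B) 1

/-- The learner with its parameters. -/
def lrnN (w u K : ℕ) (S : List (List Bool × Bool)) : List (List (ℕ × Bool)) :=
  (cdn u K S.length S.length (negs S) (lits (nvars S)) w).filter fun ρ =>
    decide (K * cov (negs S) ρ ≤ S.length)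

/-- The learner: the input is the width, the accuracy and the list of examples. -/
def learnN (p : (ℕ × ℕ) × List (List Bool × Bool)) : List (List (ℕ × Bool)) :=
  lrnN (min p.1.1 p.2.length)
    ((min p.1.1 p.2.length + 1) * (2 * cpw 2 p.2.length (min p.1.1 p.2.length)))
    (p.1.2 * cpw (cpw 2 p.2.length (min p.1.1 p.2.length) * (p.1.2.bits.length + 1)) p.2.length
      (40 * (min p.1.1 p.2.length + 1))) p.2

theorem cdn_succ (u K m B : ℕ) (neg : List (List Bool)) (ls : List (ℕ × Bool)) (j : ℕ) :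
    cdn u K m B neg ls (j + 1) = nstep u K m B neg ls (cdn u K m B neg ls j) := by
  unfold cdn
  rw [List.range_succ, List.foldl_append]
  rfl

theorem cdn_len (u K m B : ℕ) (neg : List (List Bool)) (ls : List (ℕ × Bool)) (j : ℕ) :
    (cdn u K m B neg ls j).length ≤ max 1 B := by
  induction j with
  | zero => simp [cdn]
  | succ j ih =>
    rw [cdn_succ]
    unfold nstep
    split_ifs with h
    · exact h.trans (le_max_right _ _)
    · exact ih

theorem mem_nwl {u K m : ℕ} {neg : List (List Bool)} {ls : List (ℕ × Bool)}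
    {cur : List (List (ℕ × Bool))} {t : List (ℕ × Bool)} :
    t ∈ nwl u K m neg ls cur ↔ t ∈ cur ∨ ∃ ρ ∈ cur, m < K * cov neg ρ ∧
      ∃ l ∈ bia u neg ls ρ, l :: ρ = t := by
  unfold nwl
  rw [List.mem_append, List.mem_flatMap]
  constructor
  · rintro (h | ⟨ρ, h1, h2⟩)
    · exact Or.inl h
    · right
      obtain ⟨h3, h4⟩ := List.mem_filter.1 h1
      obtain ⟨l, h5, h6⟩ := List.mem_map.1 h2
      exact ⟨ρ, h3, by simpa using h4, l, h5, h6⟩
  · rintro (h | ⟨ρ, h1, h2, l, h3, h4⟩)
    · exact Or.inl h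
    · right
      exact ⟨ρ, List.mem_filter.2 ⟨h1, by simpa using h2⟩, List.mem_map.2 ⟨l, h3, h4⟩⟩

theorem cdn_lits (u K m B : ℕ) (neg : List (List Bool)) (ls : List (ℕ × Bool)) (j : ℕ) :
    ∀ t ∈ cdn u K m B neg ls j, t.length ≤ j ∧ ∀ l ∈ t, l ∈ ls := by
  induction j with
  | zero => intro t ht; simp [cdn] at ht; subst ht; simp
  | succ j ih =>
    intro t ht
    rw [cdn_succ] at ht
    unfold nstep at ht
    split_ifs at ht with h
    · rcases mem_nwl.1 ht with h1 | ⟨ρ, h1, _, l, h2, rfl⟩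
      · exact ⟨(ih t h1).1.trans (by omega), (ih t h1).2⟩
      · obtain ⟨h3, h4⟩ := ih ρ h1
        refine ⟨by simpa using h3, fun l' hl' => ?_⟩
        rcases List.mem_cons.1 hl' with rfl | hl'
        · exact List.mem_of_mem_filter h2
        · exact h4 l' hl'
    · exact ⟨(ih t ht).1.trans (by omega), (ih t ht).2⟩

theorem cpw_succ (x B k : ℕ) : cpw x B (k + 1) = min (cpw x B k * x) B := by
  unfold cpw
  rw [List.range_succ, List.foldl_append]
  rfl

theorem cpw_le (x B k : ℕ) : cpw x B k ≤ B + 1 := by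
  cases k with
  | zero => simp [cpw]
  | succ k => rw [cpw_succ]; exact (min_le_right _ _).trans (by omega)

theorem cpw_eq (x B k : ℕ) (hx : 1 ≤ x) (h : x ^ k ≤ B) : cpw x B k = x ^ k := by
  induction k with
  | zero => simp [cpw]
  | succ k ih =>
    have h1 : x ^ k ≤ B := (Nat.pow_le_pow_right hx (by omega)).trans h
    rw [cpw_succ, ih h1, ← pow_succ, min_eq_left h]

/-! ### Polynomial time -/

section

variable {α : Type} [TEnc α]

theorem bia_poly {u : α → ℕ} {neg : α → List (List Bool)} {ls ρ : α → List (ℕ × Bool)}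
    (hu : Poly u) (hneg : Poly neg) (hls : Poly ls) (hρ : Poly ρ) :
    Poly (fun a => bia (u a) (neg a) (ls a) (ρ a)) := by
  refine NPC.Poly.filter (p := fun a l => decide (cov (neg a) (ρ a) ≤
    u a * (cov (neg a) ((l.1, !l.2) :: ρ a) - cov (neg a) (l :: ρ a)))) hls ?_
  have h1 : Poly (fun p : α × (ℕ × Bool) => p.1) := NPC.Poly.fst NPC.Poly.id
  have h2 : Poly (fun p : α × (ℕ × Bool) => p.2) := NPC.Poly.snd NPC.Poly.id
  have hneg' := hneg.comp h1
  have hρ' := hρ.comp h1
  have h3 : Poly (fun p : α × (ℕ × Bool) => ((p.2.1, !p.2.2) : ℕ × Bool)) :=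
    NPC.Poly.pair (NPC.Poly.fst h2) (NPC.Poly.not (NPC.Poly.snd h2))
  exact NPC.Poly.decide_le (cov_poly hneg' hρ') (NPC.Poly.mul (hu.comp h1)
    (NPC.Poly.sub (cov_poly hneg' (NPC.Poly.cons h3 hρ'))
      (cov_poly hneg' (NPC.Poly.cons h2 hρ'))))

theorem nwl_poly {u K m : α → ℕ} {neg : α → List (List Bool)} {ls : α → List (ℕ × Bool)}
    {cur : α → List (List (ℕ × Bool))} (hu : Poly u) (hK : Poly K) (hm : Poly m)
    (hneg : Poly neg) (hls : Poly ls) (hcur : Poly cur) :
    Poly (fun a => nwl (u a) (K a) (m a) (neg a) (ls a) (cur a)) := by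
  unfold nwl
  refine NPC.Poly.append hcur ?_
  have h1 : Poly (fun p : α × List (ℕ × Bool) => p.1) := NPC.Poly.fst NPC.Poly.id
  have h2 : Poly (fun p : α × List (ℕ × Bool) => p.2) := NPC.Poly.snd NPC.Poly.id
  refine NPC.Poly.flatMap (F := fun a ρ => (bia (u a) (neg a) (ls a) ρ).map (· :: ρ))
    (NPC.Poly.filter (p := fun a ρ => decide (m a < K a * cov (neg a) ρ)) hcur ?_) ?_
  · exact NPC.Poly.decide_lt (hm.comp h1) (NPC.Poly.mul (hK.comp h1)
      (cov_poly (hneg.comp h1) h2))
  · have h3 := bia_poly (α := α × List (ℕ × Bool)) (u := fun p => u p.1)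
      (neg := fun p => neg p.1) (ls := fun p => ls p.1) (ρ := fun p => p.2) (hu.comp h1)
      (hneg.comp h1) (hls.comp h1) h2
    refine NPC.Poly.map (F := fun p l => l :: p.2) h3 ?_
    exact NPC.Poly.cons (NPC.Poly.snd NPC.Poly.id) (NPC.Poly.snd (NPC.Poly.fst NPC.Poly.id))

theorem nstep_poly {u K m B : α → ℕ} {neg : α → List (List Bool)} {ls : α → List (ℕ × Bool)}
    {cur : α → List (List (ℕ × Bool))} (hu : Poly u) (hK : Poly K) (hm : Poly m) (hB : Poly B)
    (hneg : Poly neg) (hls : Poly ls) (hcur : Poly cur) :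
    Poly (fun a => nstep (u a) (K a) (m a) (B a) (neg a) (ls a) (cur a)) := by
  have h2 := nwl_poly hu hK hm hneg hls hcur
  exact NPC.Poly.ite (NPC.Poly.decide_le (NPC.Poly.length h2) hB) h2 hcur

theorem cdn_poly {u K m B j : α → ℕ} {neg : α → List (List Bool)} {ls : α → List (ℕ × Bool)}
    (hu : Poly u) (hK : Poly K) (hm : Poly m) (hB : UPoly B)
    (hneg : Poly neg) (hls : Poly ls) (hj : UPoly j) :
    Poly (fun a => cdn (u a) (K a) (m a) (B a) (neg a) (ls a) (j a)) := by
  obtain ⟨r, hr⟩ := UPoly.sz_le hB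
  obtain ⟨s, hs⟩ := UPoly.sz_le hj
  obtain ⟨t, ht⟩ := hls.sz_le
  have f1 : Poly (fun p : α × List (List (ℕ × Bool)) × ℕ => p.1) := NPC.Poly.fst NPC.Poly.id
  refine NPC.Poly.foldl (F := fun a cur (_ : ℕ) =>
      nstep (u a) (K a) (m a) (B a) (neg a) (ls a) cur) hj.range
    (NPC.Poly.const [[]]) (nstep_poly (hu.comp f1) (hK.comp f1) (hm.comp f1)
      (hB.toPoly.comp f1) (hneg.comp f1) (hls.comp f1)
      (NPC.Poly.fst (NPC.Poly.snd NPC.Poly.id)))
    ((r + 1) * (s * (t + 1) + Polynomial.C 2) + Polynomial.C 1) ?_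
  intro a i hi
  rw [List.length_range] at hi
  have e : (List.range (j a)).take i = List.range i := by
    rw [List.take_range, min_eq_left hi]
  rw [e]
  have h1 := sz_terms (ls a) (cdn (u a) (K a) (m a) (B a) (neg a) (ls a) i) (B a + 1) (j a)
    ((cdn_len _ _ _ _ _ _ _).trans (by omega)) (fun ρ hρ => by
      have := cdn_lits (u a) (K a) (m a) (B a) (neg a) (ls a) i ρ hρ
      exact ⟨this.1.trans hi, this.2⟩)
  refine le_trans h1 ?_
  have e1 := hr a
  have e2 := hs a
  have e3 := ht a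
  simp only [Polynomial.eval_add, Polynomial.eval_mul, Polynomial.eval_C, Polynomial.eval_one]
  refine Nat.add_le_add_right (Nat.mul_le_mul (by omega) ?_) 1
  exact Nat.add_le_add_right (Nat.mul_le_mul e2 (by omega)) 2

theorem cpw_poly {x B k : α → ℕ} (hx : Poly x) (hB : Poly B) (hk : UPoly k) :
    Poly (fun a => cpw (x a) (B a) (k a)) := by
  obtain ⟨r, hr⟩ := (NPC.Poly.succ hB).sz_le
  have f1 : Poly (fun p : α × ℕ × ℕ => p.1) := NPC.Poly.fst NPC.Poly.id
  refine NPC.Poly.foldl (F := fun a c (_ : ℕ) => min (c * x a) (B a)) hk.range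
    (NPC.Poly.const 1) (NPC.Poly.min (NPC.Poly.mul (NPC.Poly.fst (NPC.Poly.snd NPC.Poly.id))
      (hx.comp f1)) (hB.comp f1)) (Polynomial.C 2 * r) ?_
  intro a i hi
  rw [List.length_range] at hi
  have e : (List.range (k a)).take i = List.range i := by
    rw [List.take_range, min_eq_left hi]
  rw [e]
  simp only [Polynomial.eval_mul, Polynomial.eval_C]
  exact (sz_nat_mono_le (cpw_le (x a) (B a) i)).trans (Nat.mul_le_mul_left _ (hr a))

theorem lrnN_poly {w u K : α → ℕ} {S : α → List (List Bool × Bool)} (hw : UPoly w)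
    (hu : Poly u) (hK : Poly K) (hS : Poly S) :
    Poly (fun a => lrnN (w a) (u a) (K a) (S a)) := by
  have hm : UPoly (fun x => (S x).length) := UPoly.length hS
  have hneg := negs_poly.comp hS
  have hls : Poly (fun a => lits (nvars (S a))) := lits_poly (nvars_upoly.comp hS)
  have h1 := cdn_poly hu hK hm.toPoly hm hneg hls hw
  refine NPC.Poly.filter (p := fun a ρ => decide (K a * cov (negs (S a)) ρ ≤ (S a).length)) h1 ?_
  have g1 : Poly (fun p : α × List (ℕ × Bool) => p.1) := NPC.Poly.fst NPC.Poly.id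
  have g2 : Poly (fun p : α × List (ℕ × Bool) => p.2) := NPC.Poly.snd NPC.Poly.id
  exact NPC.Poly.decide_le (NPC.Poly.mul (hK.comp g1) (cov_poly (hneg.comp g1) g2))
    (hm.toPoly.comp g1)

end

theorem learnN_poly : Poly learnN := by
  have h1 : Poly (fun p : (ℕ × ℕ) × List (List Bool × Bool) => p.1) := NPC.Poly.fst NPC.Poly.id
  have h2 : Poly (fun p : (ℕ × ℕ) × List (List Bool × Bool) => p.2) := NPC.Poly.snd NPC.Poly.id
  have hw0 : Poly (fun p : (ℕ × ℕ) × List (List Bool × Bool) => p.1.1) := NPC.Poly.fst h1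
  have ha : Poly (fun p : (ℕ × ℕ) × List (List Bool × Bool) => p.1.2) := NPC.Poly.snd h1
  have hm : UPoly (fun p : (ℕ × ℕ) × List (List Bool × Bool) => p.2.length) := UPoly.length h2
  have hw : UPoly (fun p : (ℕ × ℕ) × List (List Bool × Bool) => min p.1.1 p.2.length) :=
    UPoly.of_le (NPC.Poly.min hw0 hm.toPoly) hm fun p => min_le_right _ _
  have hc := cpw_poly (α := (ℕ × ℕ) × List (List Bool × Bool)) (x := fun _ => 2)
    (B := fun p => p.2.length) (k := fun p => min p.1.1 p.2.length) (NPC.Poly.const 2) hm.toPoly hw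
  have hu : Poly (fun p : (ℕ × ℕ) × List (List Bool × Bool) =>
      (min p.1.1 p.2.length + 1) * (2 * cpw 2 p.2.length (min p.1.1 p.2.length))) :=
    NPC.Poly.mul (NPC.Poly.succ hw.toPoly) (NPC.Poly.mul (NPC.Poly.const 2) hc)
  have hbl : Poly (fun p : (ℕ × ℕ) × List (List Bool × Bool) => p.1.2.bits.length + 1) :=
    NPC.Poly.succ (NPC.Poly.length (NPC.Poly.natBits ha))
  have hK := NPC.Poly.mul ha (cpw_poly (α := (ℕ × ℕ) × List (List Bool × Bool))
    (x := fun p => cpw 2 p.2.length (min p.1.1 p.2.length) * (p.1.2.bits.length + 1))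
    (B := fun p => p.2.length) (k := fun p => 40 * (min p.1.1 p.2.length + 1))
    (NPC.Poly.mul hc hbl) hm.toPoly (UPoly.mul (UPoly.const 40) (UPoly.add hw (UPoly.const 1))))
  exact lrnN_poly hw hu hK h2

end Pool.Agent.K9h49.NW
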