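import Pool.Agent.K9h49.DN.MainB

/-!
# Convergence with logarithmic dependence on the confidence
-/

namespace Pool.Agent.K9h49.NW

open Finset Pool.Agent.Helper91K9.DL Pool.Agent.K9h49.DN

variable {n : ℕ}

open Classical in
/-- Almost all samples have good frequencies for all events of a finite family. -/
theorem conv' {ι : Type} [Fintype ι] (p : ι → Cube n → Prop) (m b : ℕ) (τ c d : ℝ) (hb : 1 ≤ b)
    (hτ : 0 < τ) (hc : (Fintype.card ι : ℝ) ≤ Real.exp c) (hd : 2 * (b : ℝ) ≤ Real.exp d)
    (hm : c + d ≤ m * τ ^ 2 / 2) (hm0 : 0 < m) :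
    (1 - 1 / (b : ℝ)) * (Fintype.card (Fin m → Cube n) : ℝ) ≤
      ((univ.filter fun X : Fin m → Cube n =>
        ∀ i, |fr X (p i) - m * PP (p i)| ≤ m * τ).card : ℝ) := by
  have hb0 : (1 : ℝ) ≤ b := by exact_mod_cast hb
  have hm0 : (0 : ℝ) < m := by exact_mod_cast hm0
  set T : ℝ := (Fintype.card (Fin m → Cube n) : ℝ) with hT
  have hT0 : 0 ≤ T := Nat.cast_nonneg _
  -- one event
  have hone : ∀ q : ι,
      ((univ.filter fun X : Fin m → Cube n =>
        m * τ < |fr X (p q) - m * PP (p q)|).card : ℝ) ≤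
        2 * Real.exp (-(c + d)) * T := by
    intro q
    set φ : Fin m → Cube n → ℝ := fun _ x => (if p q x then (1 : ℝ) else 0) - PP (p q) with hφ
    set l : ℝ := Real.sqrt m * τ with hl
    have hl0 : 0 ≤ l := by positivity
    have h1 := Pool.Agent.TH689.LX.hoeff_tail φ (fun _ => 1) (Real.sqrt m) l hl0
      (fun _ => by norm_num) (fun t x => by
        simp only [hφ]
        have h2 := PP_nonneg (p q)
        have h3 := PP_le_one (p q)
        rw [abs_le]
        split_ifs <;> constructor <;> linarith) (fun t => by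
        simp only [hφ]
        rw [sum_sub_distrib, sum_const, card_univ, PP_sum]
        simp only [Fintype.card_fun, Fintype.card_bool, Fintype.card_fin, nsmul_eq_mul]
        push_cast
        field_simp
        simp) (by positivity) (by
        rw [sum_const, card_univ, Fintype.card_fin, nsmul_eq_mul,
          Real.sq_sqrt hm0.le]
        linarith)
    have h2 : l * Real.sqrt m = m * τ := by
      rw [hl]
      have := Real.mul_self_sqrt hm0.le
      calc Real.sqrt m * τ * Real.sqrt m = (Real.sqrt m * Real.sqrt m) * τ := by ring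
        _ = _ := by rw [this]
    have h3 : ∀ X : Fin m → Cube n, ∑ t, φ t (X t) = fr X (p q) - m * PP (p q) := by
      intro X
      simp only [hφ]
      rw [sum_sub_distrib, sum_const, card_univ, Fintype.card_fin, nsmul_eq_mul, fr_sum]
    rw [h2] at h1
    simp only [h3] at h1
    refine h1.trans ?_
    refine mul_le_mul_of_nonneg_right ?_ hT0
    refine mul_le_mul_of_nonneg_left ?_ (by norm_num)
    refine Real.exp_le_exp.2 ?_
    have h4 : l ^ 2 = m * τ ^ 2 := by
      rw [hl, mul_pow, Real.sq_sqrt hm0.le]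
    rw [h4]
    linarith
  -- union bound
  have hbad : ((univ.filter fun X : Fin m → Cube n => ¬ ∀ i, |fr X (p i) - m * PP (p i)| ≤ m * τ).card
      : ℝ) ≤ 1 / b * T := by
    have h1 : (univ.filter fun X : Fin m → Cube n => ¬ ∀ i, |fr X (p i) - m * PP (p i)| ≤ m * τ) ⊆
        (univ : Finset ι).biUnion fun q =>
          univ.filter fun X : Fin m → Cube n =>
            m * τ < |fr X (p q) - m * PP (p q)| := by
      intro X hX
      have h2 := (mem_filter.1 hX).2
      push Not at h2
      obtain ⟨q, h3⟩ := h2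
      exact mem_biUnion.2 ⟨q, mem_univ _, mem_filter.2 ⟨mem_univ _, h3⟩⟩
    have h2 : ((univ.filter fun X : Fin m → Cube n =>
        ¬ ∀ i, |fr X (p i) - m * PP (p i)| ≤ m * τ).card : ℝ) ≤
        ∑ q : ι, 2 * Real.exp (-(c + d)) * T := by
      calc _ ≤ (((univ : Finset ι).biUnion fun q =>
          univ.filter fun X : Fin m → Cube n =>
            m * τ < |fr X (p q) - m * PP (p q)|).card : ℝ) := by
              exact_mod_cast card_le_card h1
        _ ≤ ((∑ q : ι, (univ.filter fun X : Fin m → Cube n =>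
            m * τ < |fr X (p q) - m * PP (p q)|).card : ℕ) : ℝ) := by
              exact_mod_cast card_biUnion_le
        _ ≤ _ := by
              push_cast
              exact sum_le_sum fun q _ => hone q
    rw [sum_const, card_univ, nsmul_eq_mul] at h2
    refine h2.trans ?_
    rw [← mul_assoc]
    refine mul_le_mul_of_nonneg_right ?_ hT0
    have h4 : Real.exp (-(c + d)) = Real.exp (-c) * Real.exp (-d) := by
      rw [← Real.exp_add]
      congr 1
      ring
    have h5 : (Fintype.card ι : ℝ) * Real.exp (-c) ≤ 1 := by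
      rw [Real.exp_neg, ← div_eq_mul_inv]
      exact (div_le_one (Real.exp_pos _)).2 hc
    have h7 : 2 * Real.exp (-d) ≤ 1 / b := by
      rw [Real.exp_neg, ← div_eq_mul_inv, div_le_div_iff₀ (Real.exp_pos _) (by linarith)]
      linarith
    calc (Fintype.card ι : ℝ) * (2 * Real.exp (-(c + d))) =
          ((Fintype.card ι : ℝ) * Real.exp (-c)) * (2 * Real.exp (-d)) := by
            rw [h4]; ring
      _ ≤ 1 * (2 * Real.exp (-d)) := mul_le_mul_of_nonneg_right h5 (by positivity)
      _ ≤ _ := by rw [one_mul]; exact h7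
  have hsum : ((univ.filter fun X : Fin m → Cube n =>
      ∀ i, |fr X (p i) - m * PP (p i)| ≤ m * τ).card : ℝ) +
      ((univ.filter fun X : Fin m → Cube n =>
        ¬ ∀ i, |fr X (p i) - m * PP (p i)| ≤ m * τ).card : ℝ) = T := by
    have := card_filter_add_card_filter_not (s := (univ : Finset (Fin m → Cube n)))
      (fun X => ∀ i, |fr X (p i) - m * PP (p i)| ≤ m * τ)
    rw [card_univ] at this
    rw [hT]
    exact_mod_cast this
  have : (1 - 1 / (b : ℝ)) * T = T - 1 / b * T := by ring
  rw [this]
  linarith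

theorem card_small {ι : Type*} [Fintype ι] [DecidableEq ι] (k : ℕ) :
    ((univ : Finset (Finset ι)).filter (fun Y => Y.card ≤ k)).card ≤ (Fintype.card ι + 1) ^ k := by
  classical
  have hcod : (univ : Finset (Fin k → Option ι)).card = (Fintype.card ι + 1) ^ k := by
    rw [Finset.card_univ, Fintype.card_fun, Fintype.card_option, Fintype.card_fin]
  rw [← hcod]
  have hsub : ((univ : Finset (Finset ι)).filter (fun Y => Y.card ≤ k)) ⊆
      (univ : Finset (Fin k → Option ι)).image
        (fun f => univ.filter (fun v => ∃ j, f j = some v)) := by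
    intro Y hY
    have hYk := (Finset.mem_filter.mp hY).2
    rw [Finset.mem_image]
    let e := Y.equivFin
    refine ⟨fun j => if h : j.val < Y.card then some (e.symm ⟨j.val, h⟩).1 else none,
      mem_univ _, ?_⟩
    ext v
    rw [Finset.mem_filter]
    constructor
    · rintro ⟨-, j, hj⟩
      simp only at hj
      by_cases h : j.val < Y.card
      · rw [dif_pos h] at hj
        rw [← Option.some.inj hj]
        exact (e.symm ⟨j.val, h⟩).2
      · rw [dif_neg h] at hj
        exact absurd hj (by simp)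
    · intro hv
      refine ⟨mem_univ _, ⟨(e ⟨v, hv⟩).val, lt_of_lt_of_le (e ⟨v, hv⟩).isLt hYk⟩, ?_⟩
      have h : (e ⟨v, hv⟩).val < Y.card := (e ⟨v, hv⟩).isLt
      simp only
      rw [dif_pos h]
      simp
  exact (Finset.card_le_card hsub).trans Finset.card_image_le

theorem two_pow_le_exp (N : ℕ) : (2 : ℝ) ^ N ≤ Real.exp N := by
  rw [← Real.exp_one_pow N]
  have := Real.add_one_le_exp (1 : ℝ)
  exact pow_le_pow_left₀ (by norm_num) (by linarith) _

theorem UU_card (t : List (ℕ × Bool)) : (UU n t).card ≤ t.length := by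
  classical
  refine le_trans ?_ (List.toFinset_card_le t)
  refine card_le_card_of_injOn (fun l => ((l.1 : ℕ), l.2)) ?_ ?_
  · intro l hl
    exact mem_coe.2 (List.mem_toFinset.2 ((mem_UU t l).1 (mem_coe.1 hl)))
  · rintro ⟨v, c⟩ _ ⟨v', c'⟩ _ h
    simp only [Prod.mk.injEq] at h ⊢
    exact ⟨Fin.ext h.1, h.2⟩

open Classical in
/-- Almost all samples have good frequencies for all short terms on the negative points. -/
theorem samp' (m b w : ℕ) (F : List (List (ℕ × Bool))) (τ : ℝ) (hb : 1 ≤ b) (hτ : 0 < τ)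
    (hm : ((w : ℝ) + 1) * (Nat.log 2 (2 * n + 1) + 1) + (Nat.log 2 b + 2) ≤ m * τ ^ 2 / 2) :
    (1 - 1 / (b : ℝ)) * (Fintype.card (Fin m → Cube n) : ℝ) ≤
      ((univ.filter fun X : Fin m → Cube n => ∀ t : List (ℕ × Bool), (∀ l ∈ t, l.1 < n) →
        t.length ≤ w + 1 → |(cov (negs (smp F X)) t : ℝ) -
          m * PP (fun x => ¬ ff n F x ∧ satL (UU n t) x)| ≤ m * τ).card : ℝ) := by
  have hm0 : 0 < m := by
    rcases Nat.eq_zero_or_pos m with rfl | h
    · have h2 : (0 : ℝ) ≤ ((w : ℝ) + 1) * (Nat.log 2 (2 * n + 1) + 1) := by positivity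
      have h3 : (0 : ℝ) ≤ Nat.log 2 b := Nat.cast_nonneg _
      simp only [CharP.cast_eq_zero, zero_mul, zero_div] at hm
      linarith
    · exact h
  have h := conv' (n := n) (ι := {U : Finset (Fin n × Bool) // U.card ≤ w + 1})
    (fun U x => ¬ ff n F x ∧ satL U.1 x) m b τ (((w : ℝ) + 1) * (Nat.log 2 (2 * n + 1) + 1))
    (Nat.log 2 b + 2) hb hτ ?_ ?_ hm hm0
  · refine h.trans ?_
    refine Nat.cast_le.2 (card_le_card fun X hX => ?_)
    simp only [mem_filter, mem_univ, true_and] at hX ⊢
    intro t ht htw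
    have h1 := hX ⟨UU n t, (UU_card t).trans htw⟩
    rw [cov_neg 0 F X t ht]
    have h2 : fr X (Reg (ff n F) (false, hyp n 0 [], UU n t)) =
        fr X (fun x => ¬ ff n F x ∧ satL (UU n t) x) := by
      rw [fr_eq, fr_eq]
      congr 2
      ext j
      simp only [mem_filter, mem_univ, true_and, Reg, Bool.false_eq_true, if_false]
      rw [hyp_iff 0 [] (by simp) (by simp)]
      have : ¬ ff n [] (X j) := by unfold ff dnfVal; simp
      tauto
    rw [h2]
    exact h1
  · have h1 : Fintype.card {U : Finset (Fin n × Bool) // U.card ≤ w + 1} ≤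
        (2 * n + 1) ^ (w + 1) := by
      rw [Fintype.card_subtype]
      refine (card_small (ι := Fin n × Bool) (w + 1)).trans (le_of_eq ?_)
      rw [Fintype.card_prod, Fintype.card_fin, Fintype.card_bool, mul_comm n 2]
    have h2 : (2 * n + 1) ^ (w + 1) ≤ 2 ^ ((w + 1) * (Nat.log 2 (2 * n + 1) + 1)) := by
      rw [mul_comm (w + 1), pow_mul]
      exact Nat.pow_le_pow_left (Nat.lt_pow_succ_log_self (by norm_num) _).le _
    have h3 : (Fintype.card {U : Finset (Fin n × Bool) // U.card ≤ w + 1} : ℝ) ≤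
        2 ^ ((w + 1) * (Nat.log 2 (2 * n + 1) + 1)) := by exact_mod_cast h1.trans h2
    refine h3.trans ((two_pow_le_exp _).trans (le_of_eq ?_))
    push_cast
    ring_nf
  · have h1 : 2 * b ≤ 2 ^ (Nat.log 2 b + 2) := by
      rw [pow_succ, mul_comm]
      exact Nat.mul_le_mul_right _ (Nat.lt_pow_succ_log_self (by norm_num) _).le
    have h2 : 2 * (b : ℝ) ≤ 2 ^ (Nat.log 2 b + 2) := by exact_mod_cast h1
    refine h2.trans ((two_pow_le_exp _).trans (le_of_eq ?_))
    push_cast
    ring_nf

end Pool.Agent.K9h49.NW
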