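import Pool.Agent.K9h49.NW.Bias
import Pool.Agent.K9h49.NW.Alg
import Pool.Agent.K9h49.NW.Conv

/-!
# The analysis on a good sample
-/

namespace Pool.Agent.K9h49.NW

open Finset Pool.Agent.Helper91K9.DL Pool.Agent.K9h49.DN

variable {n m : ℕ}

/-- The negative points which satisfy the literals of `ρ`. -/
def NG (F : List (List (ℕ × Bool))) (ρ : List (ℕ × Bool)) (x : Cube n) : Prop :=
  ¬ ff n F x ∧ satL (UU n ρ) x

/-- The situation on a good sample. -/
structure GS (w n m : ℕ) (F : List (List (ℕ × Bool))) (X : Fin m → Cube n) (u K : ℕ)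
    (τ : ℝ) : Prop where
  hm : 0 < m
  hK : 1 ≤ K
  hu : 1 ≤ u
  hτ0 : 0 < τ
  hτ : 12 * (u : ℝ) * K * τ ≤ 1
  hc : ∀ t : List (ℕ × Bool), (∀ l ∈ t, l.1 < n) → t.length ≤ w + 1 →
    |(cov (negs (smp F X)) t : ℝ) - m * PP (NG (n := n) F t)| ≤ m * τ

variable {F : List (List (ℕ × Bool))} {X : Fin m → Cube n} {w u K : ℕ} {τ : ℝ}

theorem PP_split (g : Cube n → Prop) (l : Fin n × Bool) :
    PP g = PP (fun x => g x ∧ x l.1 = !l.2) + PP (fun x => g x ∧ x l.1 = l.2) := by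
  have h1 := PP_and_not g (fun x => x l.1 = l.2)
  have h2 : PP (fun x => g x ∧ ¬ x l.1 = l.2) = PP (fun x => g x ∧ x l.1 = !l.2) :=
    PP_congr fun x => by
      constructor
      · rintro ⟨h3, h4⟩
        refine ⟨h3, ?_⟩
        revert h4; cases x l.1 <;> cases l.2 <;> simp
      · rintro ⟨h3, h4⟩
        refine ⟨h3, ?_⟩
        rw [h4]; cases l.2 <;> simp
  have h3 : PP (fun x => x l.1 = l.2 ∧ g x) = PP (fun x => g x ∧ x l.1 = l.2) :=
    PP_congr fun x => and_comm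
  rw [h2, h3] at h1
  linarith

theorem NG_cons (F : List (List (ℕ × Bool))) (ρ : List (ℕ × Bool)) (l : Fin n × Bool) :
    PP (NG (n := n) F (((l.1 : ℕ), l.2) :: ρ)) =
      PP (fun x => NG (n := n) F ρ x ∧ x l.1 = l.2) := by
  refine PP_congr fun x => ?_
  unfold NG
  rw [UU_cons, satL_insert]
  tauto

/-- The mass of an unfinished candidate. -/
theorem GS.mass (h : GS w n m F X u K τ) (ρ : List (ℕ × Bool)) (hρ : ∀ l ∈ ρ, l.1 < n)
    (hρw : ρ.length ≤ w)
    (hc : m < K * cov (negs (smp F X)) ρ) : 11 ≤ 12 * (K : ℝ) * PP (NG (n := n) F ρ) := by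
  have hm : (0 : ℝ) < m := by exact_mod_cast h.hm
  have hK : (1 : ℝ) ≤ K := by exact_mod_cast h.hK
  have hu : (1 : ℝ) ≤ u := by exact_mod_cast h.hu
  have h0 := h.hτ0
  have h1 := (abs_le.1 (h.hc ρ hρ (by omega))).2
  have h2 : (m : ℝ) < K * cov (negs (smp F X)) ρ := by exact_mod_cast hc
  have h3 : 12 * (K : ℝ) * τ ≤ 1 := by
    have h4 : 12 * (K : ℝ) * τ * 1 ≤ 12 * (K : ℝ) * τ * u :=
      mul_le_mul_of_nonneg_left hu (by positivity)
    have h5 := h.hτ
    linarith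
  set P := PP (NG (n := n) F ρ)
  have h4 : (m : ℝ) * 12 ≤ m * (12 * (K * (P + τ))) := by
    have h5 : (K : ℝ) * cov (negs (smp F X)) ρ ≤ K * (m * (P + τ)) :=
      mul_le_mul_of_nonneg_left (by linarith) (by positivity)
    linarith
  have h5 := le_of_mul_le_mul_left h4 hm
  linarith

/-- Few literals are selected. -/
theorem GS.bia_le (h : GS w n m F X u K τ) (ρ : List (ℕ × Bool)) (hρ : ∀ l ∈ ρ, l.1 < n)
    (hρw : ρ.length ≤ w)
    (hc : m < K * cov (negs (smp F X)) ρ) :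
    (bia u (negs (smp F X)) (lits n) ρ).length ≤ 8 * u ^ 2 * (Nat.log 2 (2 * K) + 1) := by
  classical
  have hm : (0 : ℝ) < m := by exact_mod_cast h.hm
  have hK : (1 : ℝ) ≤ K := by exact_mod_cast h.hK
  have hu : (1 : ℝ) ≤ u := by exact_mod_cast h.hu
  have h0 := h.hτ0
  have hmass := h.mass ρ hρ hρw hc
  set L := bia u (negs (smp F X)) (lits n) ρ with hL
  have hLlt : ∀ l ∈ L, l.1 < n := fun l hl => lits_lt n l (List.mem_of_mem_filter hl)
  have hLnd : L.Nodup := (lits_nodup n).filter _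
  refine (length_le_UU L hLnd hLlt).trans ?_
  set L' : Finset (Fin n × Bool) := (UU n L).image fun l => (l.1, !l.2) with hL'
  have hcard : (UU n L).card = L'.card := by
    rw [hL', card_image_of_injective]
    rintro ⟨v, c⟩ ⟨v', c'⟩ h
    simp only [Prod.mk.injEq] at h
    refine Prod.ext h.1 ?_
    have := h.2
    revert this; cases c <;> cases c' <;> simp
  rw [hcard]
  refine few_log (NG (n := n) F ρ) L' u (2 * K) h.hu ?_ ?_
  · push_cast
    linarith
  · intro l' hl'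
    obtain ⟨l, hl, rfl⟩ := mem_image.1 hl'
    have h1 := (mem_UU L l).1 hl
    rw [hL, bia, List.mem_filter, decide_eq_true_iff] at h1
    have h2 := h1.2
    have c0 := (abs_le.1 (h.hc ρ hρ (by omega))).1
    have hρ1 : ∀ l' ∈ ((l.1 : ℕ), l.2) :: ρ, l'.1 < n := by
      intro l' hl'
      rcases List.mem_cons.1 hl' with rfl | hl'
      · exact l.1.2
      · exact hρ l' hl'
    have hρ2 : ∀ l' ∈ ((l.1 : ℕ), !l.2) :: ρ, l'.1 < n := by
      intro l' hl'
      rcases List.mem_cons.1 hl' with rfl | hl'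
      · exact l.1.2
      · exact hρ l' hl'
    have c1 := (abs_le.1 (h.hc _ hρ1 (by simpa using hρw))).1
    have c2 := (abs_le.1 (h.hc _ hρ2 (by simpa using hρw))).2
    rw [NG_cons] at c1
    have e2 := NG_cons F ρ ((l.1, !l.2) : Fin n × Bool)
    simp only at e2
    rw [e2] at c2
    have hs := PP_split (NG (n := n) F ρ) l
    simp only
    set P := PP (NG (n := n) F ρ)
    set P1 := PP (fun x => NG (n := n) F ρ x ∧ x l.1 = !l.2)
    set P2 := PP (fun x => NG (n := n) F ρ x ∧ x l.1 = l.2)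
    set C := cov (negs (smp F X)) ρ with hC
    have hC0 : 0 < C := by
      rcases Nat.eq_zero_or_pos C with h3 | h3
      · rw [h3] at hc; omega
      · exact h3
    have h3 : (C : ℝ) ≤ u * ((cov (negs (smp F X)) (((l.1 : ℕ), !l.2) :: ρ) : ℝ) -
        cov (negs (smp F X)) (((l.1 : ℕ), l.2) :: ρ)) := by
      rcases le_total (cov (negs (smp F X)) (((l.1 : ℕ), l.2) :: ρ))
        (cov (negs (smp F X)) (((l.1 : ℕ), !l.2) :: ρ)) with h4 | h4
      · rw [← Nat.cast_sub h4]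
        exact_mod_cast h2
      · exfalso
        simp only [Nat.sub_eq_zero_of_le h4, mul_zero] at h2
        omega
    have h4 : (m : ℝ) * (P - τ) ≤ m * (u * (P1 - P2 + 2 * τ)) := by
      have h5 : (u : ℝ) * ((cov (negs (smp F X)) (((l.1 : ℕ), !l.2) :: ρ) : ℝ) -
        cov (negs (smp F X)) (((l.1 : ℕ), l.2) :: ρ)) ≤ u * (m * (P1 - P2 + 2 * τ)) :=
        mul_le_mul_of_nonneg_left (by linarith) (by positivity)
      linarith
    have h5 := le_of_mul_le_mul_left h4 hm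
    -- `P ≥ (2 + 4 u) τ`
    have h6 : (2 + 4 * (u : ℝ)) * τ ≤ P := by
      have h7 : 12 * (K : ℝ) * ((2 + 4 * u) * τ) ≤ 12 * (K : ℝ) * (6 * u * τ) :=
        mul_le_mul_of_nonneg_left (mul_le_mul_of_nonneg_right (by linarith) h0.le) (by positivity)
      have h8 : 12 * (K : ℝ) * (6 * u * τ) = 6 * (12 * u * K * τ) := by ring
      have h9 := h.hτ
      have h10 : 12 * (K : ℝ) * ((2 + 4 * u) * τ) ≤ 12 * (K : ℝ) * P := by linarith
      exact le_of_mul_le_mul_left h10 (by positivity)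
    have h7 : P / (2 * u) ≤ P1 - P2 := by
      rw [div_le_iff₀ (by positivity)]
      nlinarith
    have h8 : (1 / 2 + 1 / (4 * (u : ℝ))) * P = P / 2 + P / (2 * u) / 2 := by
      field_simp
      ring
    rw [h8]
    linarith

/-- A literal of every unsatisfied term is selected. -/
theorem GS.exists_sel (h : GS w n m F X u K τ) (hw : u = (w + 1) * (2 * 2 ^ w))
    (hF : ∀ t ∈ F, ∀ l ∈ t, l.1 < n) (hun : Unate F) (t : List (ℕ × Bool)) (ht : t ∈ F)
    (htw : t.length ≤ w) (ρ : List (ℕ × Bool)) (hρt : UU n ρ ⊆ UU n t)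
    (hρ : ∀ l ∈ ρ, l.1 < n) (hρw : ρ.length ≤ w)
    (hc : m < K * cov (negs (smp F X)) ρ) :
    ∃ l ∈ UU n t, l ∉ UU n ρ ∧ ((l.1 : ℕ), l.2) ∈ bia u (negs (smp F X)) (lits n) ρ := by
  classical
  have hm : (0 : ℝ) < m := by exact_mod_cast h.hm
  have hK : (1 : ℝ) ≤ K := by exact_mod_cast h.hK
  have hu : (1 : ℝ) ≤ u := by exact_mod_cast h.hu
  have h0 := h.hτ0
  have hmass := h.mass ρ hρ hρw hc
  have hP0 : 0 < PP (NG (n := n) F ρ) := by
    by_contra hcon
    have h1 : 12 * (K : ℝ) * PP (NG (n := n) F ρ) ≤ 0 :=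
      mul_nonpos_of_nonneg_of_nonpos (by positivity) (not_lt.1 hcon)
    linarith
  obtain ⟨l, hl, hlρ, hb⟩ := exists_bias w F hF hun t ht htw (UU n ρ) hρt (NG (n := n) F ρ)
    (fun x => Iff.rfl) hP0
  refine ⟨l, hl, hlρ, ?_⟩
  rw [bia, List.mem_filter, decide_eq_true_iff]
  refine ⟨mem_lits n _ l.1.2, ?_⟩
  have c0 := (abs_le.1 (h.hc ρ hρ (by omega))).2
  have hρ1 : ∀ l' ∈ ((l.1 : ℕ), l.2) :: ρ, l'.1 < n := by
    intro l' hl'
    rcases List.mem_cons.1 hl' with rfl | hl'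
    · exact l.1.2
    · exact hρ l' hl'
  have hρ2 : ∀ l' ∈ ((l.1 : ℕ), !l.2) :: ρ, l'.1 < n := by
    intro l' hl'
    rcases List.mem_cons.1 hl' with rfl | hl'
    · exact l.1.2
    · exact hρ l' hl'
  have c1 := (abs_le.1 (h.hc _ hρ1 (by simpa using hρw))).2
  have c2 := (abs_le.1 (h.hc _ hρ2 (by simpa using hρw))).1
  rw [NG_cons] at c1
  have e2 := NG_cons F ρ ((l.1, !l.2) : Fin n × Bool)
  simp only at e2
  rw [e2] at c2
  unfold bs at hb
  simp only
  set P := PP (NG (n := n) F ρ)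
  set P1 := PP (fun x => NG (n := n) F ρ x ∧ x l.1 = !l.2)
  set P2 := PP (fun x => NG (n := n) F ρ x ∧ x l.1 = l.2)
  have hD : 0 ≤ P1 - P2 := by
    by_contra hcon
    have h1 : (w : ℝ) * 2 ^ w * (P1 - P2) ≤ 0 :=
      mul_nonpos_of_nonneg_of_nonpos (by positivity) (by linarith)
    linarith
  have h1 : 2 * P ≤ u * (P1 - P2) := by
    have h2 : (u : ℝ) = (w + 1) * (2 * 2 ^ w) := by rw [hw]; push_cast; ring
    have h3 : (0 : ℝ) ≤ 2 ^ w * (P1 - P2) := mul_nonneg (by positivity) hD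
    rw [h2]
    nlinarith
  have h2 : (2 * (u : ℝ) + 1) * τ ≤ P := by
    have h7 : 12 * (K : ℝ) * ((2 * u + 1) * τ) ≤ 12 * (K : ℝ) * (3 * u * τ) :=
      mul_le_mul_of_nonneg_left (mul_le_mul_of_nonneg_right (by linarith) h0.le) (by positivity)
    have h8 : 12 * (K : ℝ) * (3 * u * τ) = 3 * (12 * u * K * τ) := by ring
    have h9 := h.hτ
    have h10 : 12 * (K : ℝ) * ((2 * u + 1) * τ) ≤ 12 * (K : ℝ) * P := by linarith
    exact le_of_mul_le_mul_left h10 (by positivity)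
  have h3 : (cov (negs (smp F X)) ρ : ℝ) ≤ u *
      ((cov (negs (smp F X)) (((l.1 : ℕ), !l.2) :: ρ) : ℝ) -
        cov (negs (smp F X)) (((l.1 : ℕ), l.2) :: ρ)) := by
    have h4 : (u : ℝ) * (m * (P1 - P2 - 2 * τ)) ≤ u *
      ((cov (negs (smp F X)) (((l.1 : ℕ), !l.2) :: ρ) : ℝ) -
        cov (negs (smp F X)) (((l.1 : ℕ), l.2) :: ρ)) :=
      mul_le_mul_of_nonneg_left (by linarith) (by positivity)
    have h5 : (m : ℝ) * (P + τ) ≤ m * (u * (P1 - P2 - 2 * τ)) :=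
      mul_le_mul_of_nonneg_left (by linarith) hm.le
    linarith
  have hge : cov (negs (smp F X)) (((l.1 : ℕ), l.2) :: ρ) ≤
      cov (negs (smp F X)) (((l.1 : ℕ), !l.2) :: ρ) := by
    by_contra hcon
    push Not at hcon
    have h4 : (cov (negs (smp F X)) (((l.1 : ℕ), !l.2) :: ρ) : ℝ) <
        cov (negs (smp F X)) (((l.1 : ℕ), l.2) :: ρ) := by exact_mod_cast hcon
    have h5 : (u : ℝ) * ((cov (negs (smp F X)) (((l.1 : ℕ), !l.2) :: ρ) : ℝ) -
        cov (negs (smp F X)) (((l.1 : ℕ), l.2) :: ρ)) < 0 :=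
      mul_neg_of_pos_of_neg (by linarith) (by linarith)
    have h6 : (0 : ℝ) ≤ cov (negs (smp F X)) ρ := Nat.cast_nonneg _
    linarith
  rw [← Nat.cast_sub hge] at h3
  exact_mod_cast h3

end Pool.Agent.K9h49.NW
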