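import Pool.Agent.K9h49.NW.Few

/-!
# A biased literal in every unsatisfied term
-/

namespace Pool.Agent.K9h49.NW

open Finset Pool.Agent.Helper91K9.DL Pool.Agent.K9h49.DN

variable {n : ℕ}

/-- The directions of a unate formula. -/
theorem exists_dir (F : List (List (ℕ × Bool))) (hu : Unate F) :
    ∃ σ : Fin n → Bool, ∀ t ∈ F, ∀ l ∈ UU n t, l.2 = σ l.1 := by
  have h : ∀ i : Fin n, ∃ c : Bool, ∀ t ∈ F, ((i : ℕ), !c) ∉ t := by
    intro i
    rcases hu i with h | h
    · exact ⟨false, h⟩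
    · exact ⟨true, h⟩
  choose σ hσ using h
  refine ⟨σ, fun t ht l hl => ?_⟩
  have h1 := (mem_UU t l).1 hl
  have h2 := hσ l.1 t ht
  by_contra h3
  have h4 : l.2 = !σ l.1 := by
    revert h3; cases l.2 <;> cases σ l.1 <;> simp
  rw [h4] at h1
  exact h2 h1

/-- Make the literal `l` true. -/
def st (l : Fin n × Bool) (x : Cube n) : Cube n := Function.update x l.1 l.2

/-- Make all literals of `L` true. -/
def stAll (L : List (Fin n × Bool)) (x : Cube n) : Cube n := L.foldl (fun x l => st l x) x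

theorem st_cases (l : Fin n × Bool) (x : Cube n) :
    (x l.1 = l.2 ∧ st l x = x) ∨ (x l.1 = (!l.2) ∧ st l x = fl l.1 x) := by
  by_cases h : x l.1 = l.2
  · left
    refine ⟨h, ?_⟩
    unfold st
    rw [← h, Function.update_eq_self]
  · right
    have h1 : x l.1 = !l.2 := by
      revert h; cases x l.1 <;> cases l.2 <;> simp
    refine ⟨h1, ?_⟩
    unfold st fl
    rw [h1, Bool.not_not]

theorem PP_st (l : Fin n × Bool) (p : Cube n → Prop) : PP (fun x => p (st l x)) ≤ 2 * PP p := by
  have h1 : PP (fun x => p (st l x)) ≤ PP p + PP (fun x => p (fl l.1 x)) := by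
    refine le_trans (PP_mono fun x hx => ?_) (PP_or_le _ _)
    rcases st_cases l x with ⟨_, h⟩ | ⟨_, h⟩
    · left; rwa [h] at hx
    · right; rwa [h] at hx
  rw [PP_fl] at h1
  linarith

/-- The boundary of `g` in the direction of the literal `l`. -/
noncomputable def bd (g : Cube n → Prop) (l : Fin n × Bool) : ℝ :=
  PP (fun x => g x ∧ ¬ g (st l x))

theorem bd_nonneg (g : Cube n → Prop) (l : Fin n × Bool) : 0 ≤ bd g l := PP_nonneg _

theorem path_le (g : Cube n → Prop) : ∀ L : List (Fin n × Bool),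
    PP (fun x => g x ∧ ¬ g (stAll L x)) ≤ 2 ^ L.length * (L.map (bd g)).sum := by
  intro L
  induction L with
  | nil =>
    have : PP (fun x => g x ∧ ¬ g (stAll [] x)) = 0 :=
      PP_false _ fun x hx => hx.2 hx.1
    rw [this]
    simp
  | cons l L ih =>
    have h1 : PP (fun x => g x ∧ ¬ g (stAll (l :: L) x)) ≤
        bd g l + PP (fun x => (fun y => g y ∧ ¬ g (stAll L y)) (st l x)) := by
      refine le_trans (PP_mono fun x hx => ?_) (PP_or_le _ _)
      by_cases h : g (st l x)
      · right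
        exact ⟨h, hx.2⟩
      · left
        exact ⟨hx.1, h⟩
    have h2 := PP_st l (fun y => g y ∧ ¬ g (stAll L y))
    have h3 : 0 ≤ (L.map (bd g)).sum := List.sum_nonneg fun y hy => by
      obtain ⟨l', _, rfl⟩ := List.mem_map.1 hy
      exact bd_nonneg g l'
    have h4 : (1 : ℝ) ≤ 2 ^ L.length := one_le_pow₀ (by norm_num)
    have h5 := bd_nonneg g l
    have h6 : bd g l ≤ 2 ^ (L.length + 1) * bd g l := by
      have : (1 : ℝ) ≤ 2 ^ (L.length + 1) := one_le_pow₀ (by norm_num)
      nlinarith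
    rw [List.map_cons, List.sum_cons, List.length_cons, mul_add]
    refine h1.trans (add_le_add h6 (h2.trans ?_))
    calc 2 * PP (fun y => g y ∧ ¬ g (stAll L y)) ≤ 2 * (2 ^ L.length * (L.map (bd g)).sum) := by
          linarith
      _ = _ := by rw [pow_succ]; ring

/-- The bias of the literal `l` on `g`. -/
noncomputable def bs (g : Cube n → Prop) (l : Fin n × Bool) : ℝ :=
  PP (fun x => g x ∧ x l.1 = !l.2) - PP (fun x => g x ∧ x l.1 = l.2)

theorem bd_le_bs (g : Cube n → Prop) (l : Fin n × Bool)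
    (h : ∀ x, x l.1 = l.2 → g x → g (fl l.1 x)) : bd g l ≤ bs g l := by
  have h1 : bd g l ≤ PP (fun x => (g x ∧ x l.1 = !l.2) ∧ ¬ g (fl l.1 x)) := by
    refine PP_mono fun x hx => ?_
    rcases st_cases l x with ⟨_, h2⟩ | ⟨h1, h2⟩
    · rw [h2] at hx; exact absurd hx.1 hx.2
    · rw [h2] at hx; exact ⟨⟨hx.1, h1⟩, hx.2⟩
  rw [PP_and_not] at h1
  have h2 : PP (fun x => g x ∧ x l.1 = l.2) =
      PP (fun x => g (fl l.1 x) ∧ (g x ∧ x l.1 = !l.2)) := by
    rw [← PP_fl l.1]
    refine PP_congr fun x => ?_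
    rw [fl_self]
    constructor
    · rintro ⟨h3, h4⟩
      have h5 := h (fl l.1 x) (by rw [fl_self]; exact h4) h3
      rw [fl_fl] at h5
      refine ⟨h3, h5, ?_⟩
      revert h4; cases x l.1 <;> cases l.2 <;> simp
    · rintro ⟨h3, _, h4⟩
      refine ⟨h3, ?_⟩
      rw [h4, Bool.not_not]
  unfold bs
  rw [h2]
  exact h1

theorem stAll_val (σ : Fin n → Bool) : ∀ (L : List (Fin n × Bool)), (∀ l ∈ L, l.2 = σ l.1) →
    ∀ (x : Cube n) (i : Fin n),
      ((∃ l ∈ L, l.1 = i) → stAll L x i = σ i) ∧ ((¬ ∃ l ∈ L, l.1 = i) → stAll L x i = x i) := by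
  intro L
  induction L with
  | nil =>
    intro _ x i
    refine ⟨?_, fun _ => rfl⟩
    rintro ⟨l, hl, _⟩
    simp at hl
  | cons l L ih =>
    intro hL x i
    have h1 := ih (fun l' hl' => hL l' (List.mem_cons_of_mem _ hl')) (st l x) i
    have h2 : stAll (l :: L) x = stAll L (st l x) := rfl
    rw [h2]
    by_cases h3 : ∃ l' ∈ L, l'.1 = i
    · obtain ⟨l', h4, h5⟩ := h3
      refine ⟨fun _ => h1.1 ⟨l', h4, h5⟩, fun h => ?_⟩
      exact absurd ⟨l', List.mem_cons_of_mem _ h4, h5⟩ h
    · by_cases h4 : l.1 = i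
      · refine ⟨fun _ => ?_, fun h => absurd ⟨l, by simp, h4⟩ h⟩
        rw [h1.2 h3]
        unfold st
        rw [← h4, Function.update_self]
        exact hL l (by simp)
      · constructor
        · rintro ⟨l', h5, h6⟩
          rcases List.mem_cons.1 h5 with rfl | h5
          · exact absurd h6 h4
          · exact absurd ⟨l', h5, h6⟩ h3
        · intro _
          rw [h1.2 h3]
          unfold st
          rw [Function.update_of_ne (Ne.symm h4)]

/-- Every unsatisfied term of a unate formula contains a biased literal. -/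
theorem exists_bias (w : ℕ) (F : List (List (ℕ × Bool))) (hF : ∀ t ∈ F, ∀ l ∈ t, l.1 < n)
    (hu : Unate F) (t : List (ℕ × Bool)) (ht : t ∈ F) (hw : t.length ≤ w)
    (ρ : Finset (Fin n × Bool)) (hρ : ρ ⊆ UU n t) (g : Cube n → Prop)
    (hg : ∀ x, g x ↔ ¬ ff n F x ∧ satL ρ x) (hg0 : 0 < PP g) :
    ∃ l ∈ UU n t, l ∉ ρ ∧ PP g ≤ w * 2 ^ w * bs g l := by
  classical
  obtain ⟨σ, hσ⟩ := exists_dir (n := n) F hu
  by_contra hcon
  push Not at hcon
  set L := (UU n t \ ρ).toList with hL
  have hLm : ∀ l, l ∈ L ↔ l ∈ UU n t ∧ l ∉ ρ := by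
    intro l
    rw [hL, mem_toList, mem_sdiff]
  have hLσ : ∀ l ∈ L, l.2 = σ l.1 := fun l hl => hσ t ht l ((hLm l).1 hl).1
  have hall : ∀ x, g x → ¬ g (stAll L x) := by
    intro x hx h2
    have h3 := ((hg _).1 h2).1
    apply h3
    rw [ff_iff F hF]
    refine ⟨t, ht, fun l hl => ?_⟩
    have h4 := stAll_val σ L hLσ x l.1
    by_cases h5 : ∃ l' ∈ L, l'.1 = l.1
    · rw [h4.1 h5]
      exact (hσ t ht l hl).symm
    · rw [h4.2 h5]
      refine ((hg x).1 hx).2 l ?_
      by_contra h6
      exact h5 ⟨l, (hLm l).2 ⟨hl, h6⟩, rfl⟩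
  have h1 := path_le g L
  have h2 : PP (fun x => g x ∧ ¬ g (stAll L x)) = PP g :=
    PP_congr fun x => ⟨fun h => h.1, fun h => ⟨h, hall x h⟩⟩
  rw [h2] at h1
  have hlen : L.length ≤ w := by
    rw [hL, length_toList]
    refine (card_le_card sdiff_subset).trans (le_trans ?_ hw)
    refine le_trans ?_ (List.toFinset_card_le t)
    refine card_le_card_of_injOn (fun l => ((l.1 : ℕ), l.2)) ?_ ?_
    · intro l hl
      exact mem_coe.2 (List.mem_toFinset.2 ((mem_UU t l).1 (mem_coe.1 hl)))
    · rintro ⟨v, c⟩ _ ⟨v', c'⟩ _ h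
      simp only [Prod.mk.injEq] at h ⊢
      exact ⟨Fin.ext h.1, h.2⟩
  have hmono : ∀ l ∈ L, ∀ x : Cube n, x l.1 = l.2 → g x → g (fl l.1 x) := by
    intro l hl x hx hgx
    obtain ⟨h3, h4⟩ := (hg x).1 hgx
    obtain ⟨h5, h6⟩ := (hLm l).1 hl
    rw [hg]
    constructor
    · intro h7
      apply h3
      rw [ff_iff F hF] at h7 ⊢
      obtain ⟨t', ht', h8⟩ := h7
      refine ⟨t', ht', fun l' hl' => ?_⟩
      by_cases h9 : l'.1 = l.1
      · have h10 := h8 l' hl'
        rw [h9, fl_self, hx, hLσ l hl, ← h9, ← hσ t' ht' l' hl'] at h10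
        revert h10; cases l'.2 <;> simp
      · have h10 := h8 l' hl'
        rwa [fl_ne _ _ h9] at h10
    · intro l' hl'
      have h9 : l'.1 ≠ l.1 := by
        intro h10
        apply h6
        have : l' = l := by
          refine Prod.ext h10 ?_
          rw [hσ t ht l' (hρ hl'), hσ t ht l h5, h10]
        rwa [← this]
      rw [fl_ne _ _ h9]
      exact h4 l' hl'
  rcases Nat.eq_zero_or_pos w with h0 | h0
  · have h3 : L.length = 0 := by omega
    rw [List.length_eq_zero_iff.1 h3] at h1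
    simp at h1
    linarith
  · have hw0 : (0 : ℝ) < w := by exact_mod_cast h0
    have hpw : (0 : ℝ) < w * 2 ^ w := by positivity
    rcases List.eq_nil_or_concat L with hnil | ⟨_, _, hne⟩
    · rw [hnil] at h1
      simp at h1
      linarith
    · have h3 : ∀ l ∈ L, bd g l < PP g / (w * 2 ^ w) := by
        intro l hl
        refine (bd_le_bs g l (hmono l hl)).trans_lt ?_
        rw [lt_div_iff₀ hpw, mul_comm]
        exact hcon l ((hLm l).1 hl).1 ((hLm l).1 hl).2
      have h4 : (L.map (bd g)).sum < L.length * (PP g / (w * 2 ^ w)) := by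
        have h5 : ∀ L' : List (Fin n × Bool), (∀ l ∈ L', bd g l < PP g / (w * 2 ^ w)) →
            (L'.map (bd g)).sum ≤ L'.length * (PP g / (w * 2 ^ w)) ∧
            (L' ≠ [] → (L'.map (bd g)).sum < L'.length * (PP g / (w * 2 ^ w))) := by
          intro L'
          induction L' with
          | nil => intro _; exact ⟨by simp, fun h => absurd rfl h⟩
          | cons l L' ih =>
            intro h
            have h6 := (ih fun l' hl' => h l' (List.mem_cons_of_mem _ hl')).1
            have h7 := h l (by simp)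
            rw [List.map_cons, List.sum_cons, List.length_cons]
            push_cast
            exact ⟨by linarith, fun _ => by linarith⟩
        exact (h5 L h3).2 (by rw [hne]; simp)
      have h5 : (2 : ℝ) ^ L.length ≤ 2 ^ w := pow_le_pow_right₀ (by norm_num) hlen
      have h6 : (L.length : ℝ) ≤ w := by exact_mod_cast hlen
      have h7 : (L.length : ℝ) * (PP g / (w * 2 ^ w)) ≤ w * (PP g / (w * 2 ^ w)) :=
        mul_le_mul_of_nonneg_right h6 (by positivity)
      have h8 : (2 : ℝ) ^ L.length * (L.map (bd g)).sum ≤ 2 ^ w * (L.map (bd g)).sum := by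
        refine mul_le_mul_of_nonneg_right h5 (List.sum_nonneg fun y hy => ?_)
        obtain ⟨l', _, rfl⟩ := List.mem_map.1 hy
        exact bd_nonneg g l'
      have h9 : (2 : ℝ) ^ w * (L.map (bd g)).sum < 2 ^ w * (w * (PP g / (w * 2 ^ w))) :=
        mul_lt_mul_of_pos_left (h4.trans_le h7) (by positivity)
      have h10 : (2 : ℝ) ^ w * (w * (PP g / (w * 2 ^ w))) = PP g := by field_simp
      linarith

end Pool.Agent.K9h49.NW
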