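import Pool.Agent.K9h49.DN.MainB

/-!
# The number of biased literals, and a biased literal in every unsatisfied term
-/

namespace Pool.Agent.K9h49.NW

open Finset Pool.Agent.Helper91K9.DL Pool.Agent.K9h49.DN

variable {n : ℕ}

theorem exp_sum_le' (L : Finset (Fin n × Bool)) (c : ℝ) :
    ∑ x : Cube n, Real.exp (c * ∑ l ∈ L, psi l x) ≤ 2 ^ n * Real.exp (c ^ 2 * L.card / 8) := by
  classical
  set φ : Fin n → Bool → ℝ := fun t a =>
    (if (t, true) ∈ L then (if a = true then 1 / 2 else -1 / 2) else 0) +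
      (if (t, false) ∈ L then (if a = false then 1 / 2 else -1 / 2) else 0) with hφ
  set β : Fin n → ℝ := fun t => if (t, true) ∈ L ∨ (t, false) ∈ L then 1 / 2 else 0 with hβ
  have h1 := Pool.Agent.TH689.LX.hoeff_exp φ β c (fun t => by
      simp only [hβ]; split_ifs <;> norm_num) (fun t a => by
      simp only [hφ, hβ]
      by_cases h1 : (t, true) ∈ L <;> by_cases h2 : (t, false) ∈ L <;> cases a <;>
        simp [h1, h2] <;> norm_num) (fun t => by
      simp only [hφ, Fintype.sum_bool]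
      by_cases h1 : (t, true) ∈ L <;> by_cases h2 : (t, false) ∈ L <;>
        simp [h1, h2] <;> norm_num)
  have h2 : ∀ x : Cube n, ∑ t, φ t (x t) = ∑ l ∈ L, psi l x := by
    intro x
    have e : ∑ l ∈ L, psi l x = ∑ l : Fin n × Bool, if l ∈ L then psi l x else 0 := by
      rw [← sum_filter]
      congr 1
      ext l; simp
    rw [e, Fintype.sum_prod_type]
    refine sum_congr rfl fun t _ => ?_
    rw [Fintype.sum_bool]
    rfl
  simp only [h2] at h1
  refine h1.trans ?_
  have h3 : (Fintype.card (Fin n → Bool) : ℝ) = 2 ^ n := by simp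
  rw [h3]
  refine mul_le_mul_of_nonneg_left (Real.exp_le_exp.2 ?_) (by positivity)
  have h4 : ∑ t, β t ^ 2 ≤ (L.card : ℝ) / 4 := by
    have e : (L.card : ℝ) / 4 = ∑ l : Fin n × Bool, if l ∈ L then (1 / 4 : ℝ) else 0 := by
      rw [← sum_filter]
      have : (univ.filter fun l => l ∈ L) = L := by ext l; simp
      rw [this, sum_const, nsmul_eq_mul]
      ring
    rw [e, Fintype.sum_prod_type]
    refine sum_le_sum fun t _ => ?_
    rw [Fintype.sum_bool]
    simp only [hβ]
    by_cases h1 : (t, true) ∈ L <;> by_cases h2 : (t, false) ∈ L <;>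
      simp [h1, h2] <;> norm_num
  have h5 : 0 ≤ c ^ 2 := sq_nonneg c
  nlinarith [mul_le_mul_of_nonneg_left h4 h5]

/-- There are few literals with bias `β` on a large set. -/
theorem few_beta (G : Cube n → Prop) (L : Finset (Fin n × Bool)) (β : ℝ) (hβ : 0 ≤ β)
    (hL : ∀ l ∈ L, (1 / 2 + β) * PP G ≤ PP (fun x => G x ∧ x l.1 = l.2)) :
    Real.exp (2 * β ^ 2 * L.card) * PP G ≤ 1 := by
  classical
  have h2n : (0 : ℝ) < 2 ^ n := by positivity
  set GS : Finset (Cube n) := univ.filter G with hGS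
  have hPG : PP G = (GS.card : ℝ) / 2 ^ n := PP_eq G
  have h1 : ∀ l ∈ L, β * (GS.card : ℝ) ≤ ∑ x ∈ GS, psi l x := by
    intro l hl
    have h := hL l hl
    rw [PP_eq, PP_eq, ← mul_div_assoc, div_le_div_iff_of_pos_right h2n] at h
    have e : ∑ x ∈ GS, psi l x = ((univ.filter fun x => G x ∧ x l.1 = l.2).card : ℝ) -
        GS.card / 2 := by
      have e1 : (univ.filter fun x => G x ∧ x l.1 = l.2) = GS.filter fun x => x l.1 = l.2 := by
        ext x; simp [hGS]
      rw [e1, card_filter]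
      push_cast
      have e2 : (GS.card : ℝ) / 2 = ∑ _x ∈ GS, (1 / 2 : ℝ) := by
        rw [sum_const, nsmul_eq_mul]; ring
      rw [e2, ← sum_sub_distrib]
      refine sum_congr rfl fun x _ => ?_
      unfold psi
      split_ifs <;> norm_num
    rw [e]
    have : (univ.filter G).card = GS.card := rfl
    rw [this] at h
    linarith
  have h2 : (L.card : ℝ) * (β * GS.card) ≤ ∑ x ∈ GS, ∑ l ∈ L, psi l x := by
    rw [sum_comm, ← nsmul_eq_mul, ← sum_const]
    exact sum_le_sum h1
  set c : ℝ := 4 * β * (L.card * β) with hc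
  have h3 : Real.exp c * GS.card ≤ ∑ x : Cube n, Real.exp (4 * β * ∑ l ∈ L, psi l x) := by
    calc Real.exp c * GS.card ≤
        ∑ x ∈ GS, Real.exp c * (1 + 4 * β * (∑ l ∈ L, psi l x) - c) := by
          rw [← mul_sum]
          refine mul_le_mul_of_nonneg_left ?_ (Real.exp_pos _).le
          rw [sum_sub_distrib, sum_add_distrib, sum_const, sum_const, nsmul_eq_mul, nsmul_eq_mul,
            ← mul_sum]
          have h4 : 4 * β * (L.card * (β * GS.card)) ≤ 4 * β * ∑ x ∈ GS, ∑ l ∈ L, psi l x :=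
            mul_le_mul_of_nonneg_left h2 (by positivity)
          have h5 : (GS.card : ℝ) * c = 4 * β * (L.card * (β * GS.card)) := by rw [hc]; ring
          rw [h5]
          linarith
      _ ≤ ∑ x ∈ GS, Real.exp (4 * β * ∑ l ∈ L, psi l x) := sum_le_sum fun x _ => exp_ge _ _
      _ ≤ _ := sum_le_sum_of_subset_of_nonneg (subset_univ _) fun _ _ _ => (Real.exp_pos _).le
  have h4 := h3.trans (exp_sum_le' L (4 * β))
  have h5 : Real.exp c = Real.exp (2 * β ^ 2 * L.card) *
      Real.exp ((4 * β) ^ 2 * L.card / 8) := by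
    rw [← Real.exp_add, hc]; congr 1; ring
  rw [h5] at h4
  have h6 : Real.exp (2 * β ^ 2 * L.card) * (GS.card : ℝ) ≤ 2 ^ n := by
    have hp := Real.exp_pos ((4 * β) ^ 2 * (L.card : ℝ) / 8)
    refine le_of_mul_le_mul_right ?_ hp
    calc _ = Real.exp (2 * β ^ 2 * L.card) * Real.exp ((4 * β) ^ 2 * L.card / 8) * GS.card := by
          ring
      _ ≤ _ := h4
  rw [hPG, ← mul_div_assoc]
  exact (div_le_one h2n).2 h6

/-- There are at most `8 u ^ 2 (log N + 1)` literals with bias `1 / (4 u)`. -/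
theorem few_log (G : Cube n → Prop) (L : Finset (Fin n × Bool)) (u N : ℕ) (hu : 1 ≤ u)
    (hG : 1 ≤ N * PP G)
    (hL : ∀ l ∈ L, (1 / 2 + 1 / (4 * u)) * PP G ≤ PP (fun x => G x ∧ x l.1 = l.2)) :
    L.card ≤ 8 * u ^ 2 * (Nat.log 2 N + 1) := by
  have hu' : (1 : ℝ) ≤ u := by exact_mod_cast hu
  have h1 := few_beta G L (1 / (4 * u)) (by positivity) hL
  have h0 : 0 < PP G := by
    by_contra h
    have h2 : PP G = 0 := le_antisymm (not_lt.1 h) (PP_nonneg G)
    rw [h2, mul_zero] at hG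
    norm_num at hG
  have h2 : Real.exp (2 * (1 / (4 * (u : ℝ))) ^ 2 * L.card) ≤ N :=
    le_of_mul_le_mul_right (h1.trans hG) h0
  have h3 : (N : ℝ) ≤ Real.exp ((Nat.log 2 N + 1 : ℕ) : ℝ) := by
    have h4 : (N : ℝ) ≤ 2 ^ (Nat.log 2 N + 1) := by
      exact_mod_cast (Nat.lt_pow_succ_log_self (by norm_num) N).le
    refine h4.trans ?_
    rw [← Real.exp_one_pow (Nat.log 2 N + 1)]
    have := Real.add_one_le_exp (1 : ℝ)
    exact pow_le_pow_left₀ (by norm_num) (by linarith) _
  have h4 := Real.exp_le_exp.1 (h2.trans h3)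
  have h5 : 2 * (1 / (4 * (u : ℝ))) ^ 2 * L.card = L.card / (8 * u ^ 2) := by
    field_simp
    ring
  rw [h5, div_le_iff₀ (by positivity)] at h4
  have h6 : (L.card : ℝ) ≤ ((8 * u ^ 2 * (Nat.log 2 N + 1) : ℕ) : ℝ) := by
    push_cast at h4 ⊢
    linarith
  exact_mod_cast h6

end Pool.Agent.K9h49.NW
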