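import Pool.Agent.K9h49.NW.Main

/-!
# The main theorem on unate formulas of small width
-/

namespace Pool.Agent.K9h49.NW

open Finset Pool.Agent.Helper91K9.DL Pool.Agent.K9h49.DN Pool.Agent.NPC
  Pool.Agent.H424R2.PPAD

theorem num_K (w a s y u K ℓ : ℕ) (has : a ≤ 2 ^ s) (hs : 1 ≤ s)
    (hy : y = 2 ^ w * (s + 1)) (hu : u = (w + 1) * (2 * 2 ^ w)) (hK : K = a * y ^ (40 * (w + 1)))
    (hℓ : ℓ = 8 * u ^ 2 * (Nat.log 2 (2 * K) + 1)) :
    u ≤ y ^ 2 ∧ 1 + ℓ ≤ y ^ 15 ∧ 2 * a * (1 + ℓ) ^ w ≤ K := by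
  have hw : w + 1 ≤ 2 ^ w := Nat.lt_two_pow_self
  have hy1 : 2 * 2 ^ w ≤ y := by rw [hy, mul_comm]; exact Nat.mul_le_mul_left _ (by omega)
  have hy2 : 2 ≤ y := by omega
  have hy3 : s + 1 ≤ y := by rw [hy]; exact Nat.le_mul_of_pos_left _ (by positivity)
  have hu2 : u ≤ y ^ 2 := by
    rw [hu, pow_two]
    exact Nat.mul_le_mul (by omega) hy1
  have hyy : y ≤ 2 ^ y := Nat.lt_two_pow_self.le
  have h1 : 2 * K ≤ 2 ^ (1 + s + 40 * (w + 1) * y) := by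
    rw [hK]
    calc 2 * (a * y ^ (40 * (w + 1))) ≤ 2 * (2 ^ s * (2 ^ y) ^ (40 * (w + 1))) := by gcongr
      _ = 2 ^ (1 + s + 40 * (w + 1) * y) := by
          rw [← pow_mul, pow_add, pow_add, pow_one, mul_comm y]
          ring
  have h2 : Nat.log 2 (2 * K) ≤ 1 + s + 40 * (w + 1) * y := by
    calc Nat.log 2 (2 * K) ≤ Nat.log 2 (2 ^ (1 + s + 40 * (w + 1) * y)) := Nat.log_mono_right h1
      _ = _ := Nat.log_pow (by norm_num) _
  have h3 : Nat.log 2 (2 * K) + 1 ≤ 42 * y ^ 2 := by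
    have h4 : 40 * (w + 1) * y ≤ 40 * y * y := Nat.mul_le_mul_right _ (by omega)
    nlinarith
  have h4 : 1 + ℓ ≤ y ^ 15 := by
    rw [hℓ]
    have h5 : 8 * u ^ 2 * (Nat.log 2 (2 * K) + 1) ≤ 8 * (y ^ 2) ^ 2 * (42 * y ^ 2) := by gcongr
    have h6 : 8 * (y ^ 2) ^ 2 * (42 * y ^ 2) = 336 * y ^ 6 := by ring
    have h7 : 1 ≤ y ^ 6 := Nat.one_le_pow _ _ (by omega)
    have h8 : 2 ^ 9 ≤ y ^ 9 := Nat.pow_le_pow_left hy2 9
    calc 1 + 8 * u ^ 2 * (Nat.log 2 (2 * K) + 1) ≤ 337 * y ^ 6 := by omega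
      _ ≤ y ^ 9 * y ^ 6 := Nat.mul_le_mul_right _ (by omega)
      _ = y ^ 15 := by ring
  refine ⟨hu2, h4, ?_⟩
  have h5 : (1 + ℓ) ^ w ≤ y ^ (15 * w) := by
    rw [pow_mul]; exact Nat.pow_le_pow_left h4 w
  calc 2 * a * (1 + ℓ) ^ w ≤ y * a * y ^ (15 * w) :=
        Nat.mul_le_mul (Nat.mul_le_mul_right _ hy2) h5
    _ = a * y ^ (15 * w + 1) := by rw [pow_succ]; ring
    _ ≤ K := by
        rw [hK]
        exact Nat.mul_le_mul_left _ (Nat.pow_le_pow_right (by omega) (by omega))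

theorem num_mN (n w a b s y u K ℓ m e : ℕ) (he : 170 ≤ e) (ha : 1 ≤ a) (hb : 1 ≤ b)
    (hs : s ≤ a) (hs1 : 1 ≤ s) (hu : u ≤ y ^ 2) (hℓ : 1 + ℓ ≤ y ^ 15)
    (hy : y = 2 ^ w * (s + 1)) (hK : K = a * y ^ (40 * (w + 1)))
    (hm : (a + 1) ^ e * y ^ (e * w) * (Nat.log 2 (n + b) + 1) ≤ m) :
    y ^ (40 * (w + 1)) ≤ m ∧ 2 ^ w ≤ m ∧ (1 + ℓ) ^ w ≤ m ∧
      2 * (12 * u * K) ^ 2 * ((w + 1) * (Nat.log 2 (2 * n + 1) + 1) + (Nat.log 2 b + 2)) ≤ m := by
  have hw : w + 1 ≤ 2 ^ w := Nat.lt_two_pow_self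
  have hy1 : 2 * 2 ^ w ≤ y := by rw [hy, mul_comm]; exact Nat.mul_le_mul_left _ (by omega)
  have hy2 : 2 ≤ y := by omega
  have hl1 : Nat.log 2 (2 * n + 1) ≤ Nat.log 2 (n + b) + 1 := by
    have h1 : Nat.log 2 (2 * n + 1) ≤ Nat.log 2 ((n + b) * 2) := Nat.log_mono_right (by omega)
    rwa [Nat.log_mul_base (by norm_num) (by omega)] at h1
  have hl2 : Nat.log 2 b ≤ Nat.log 2 (n + b) := Nat.log_mono_right (by omega)
  generalize Nat.log 2 (n + b) = lam at *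
  generalize Nat.log 2 (2 * n + 1) = l1 at *
  generalize Nat.log 2 b = l2 at *
  have h3 : (w + 1) * (l1 + 1) + (l2 + 2) ≤ 2 * y * (lam + 1) := by
    have h4 : (w + 1) * (l1 + 1) ≤ (w + 1) * (lam + 2) := Nat.mul_le_mul_left _ (by omega)
    have h5 : (w + 2) * (lam + 2) ≤ y * (2 * (lam + 1)) := Nat.mul_le_mul (by omega) (by omega)
    nlinarith
  have haq : a ≤ a + 1 := by omega
  have hsq : s + 1 ≤ a + 1 := by omega
  have hq2 : 2 ≤ a + 1 := by omega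
  generalize a + 1 = q at *
  have key : q ^ 12 * y ^ (85 * (w + 1)) * (lam + 1) ≤ m := by
    refine le_trans (Nat.mul_le_mul_right _ ?_) hm
    have h1 : y ^ 85 ≤ y ^ (85 * w) * q ^ 85 := by
      calc y ^ 85 = (2 ^ w) ^ 85 * (s + 1) ^ 85 := by rw [← mul_pow, ← hy]
        _ = (2 ^ 85) ^ w * (s + 1) ^ 85 := by rw [← pow_mul, ← pow_mul, mul_comm w]
        _ ≤ (y ^ 85) ^ w * q ^ 85 :=
            Nat.mul_le_mul (Nat.pow_le_pow_left (Nat.pow_le_pow_left hy2 85) w)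
              (Nat.pow_le_pow_left hsq 85)
        _ = y ^ (85 * w) * q ^ 85 := by rw [← pow_mul]
    calc q ^ 12 * y ^ (85 * (w + 1)) = q ^ 12 * (y ^ (85 * w) * y ^ 85) := by
          rw [← pow_add]; congr 2
      _ ≤ q ^ 12 * (y ^ (85 * w) * (y ^ (85 * w) * q ^ 85)) := by gcongr
      _ = q ^ 97 * y ^ (170 * w) := by
          rw [show 97 = 12 + 85 by norm_num, show 170 * w = 85 * w + 85 * w by ring,
            pow_add q, pow_add y]
          ring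
      _ ≤ q ^ e * y ^ (e * w) :=
          Nat.mul_le_mul (Nat.pow_le_pow_right (by omega) (by omega))
            (Nat.pow_le_pow_right (by omega) (Nat.mul_le_mul_right _ he))
  have hq12 : 1 ≤ q ^ 12 := Nat.one_le_pow _ _ (by omega)
  have key2 : y ^ (85 * (w + 1)) ≤ m :=
    ((Nat.le_mul_of_pos_left _ hq12).trans (Nat.le_mul_of_pos_right _ (Nat.succ_pos lam))).trans key
  refine ⟨(Nat.pow_le_pow_right (by omega) (by omega)).trans key2, ?_, ?_, ?_⟩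
  · refine le_trans ?_ key2
    exact (Nat.pow_le_pow_left hy2 w).trans (Nat.pow_le_pow_right (by omega) (by omega))
  · refine le_trans (Nat.pow_le_pow_left hℓ w) ?_
    rw [← pow_mul]
    exact (Nat.pow_le_pow_right (by omega) (by omega)).trans key2
  · refine le_trans ?_ key
    rw [hK]
    have h10 : 2 ^ 10 ≤ q ^ 10 := Nat.pow_le_pow_left hq2 10
    calc 2 * (12 * u * (a * y ^ (40 * (w + 1)))) ^ 2 * ((w + 1) * (l1 + 1) + (l2 + 2)) ≤
          2 * (12 * y ^ 2 * (q * y ^ (40 * (w + 1)))) ^ 2 * (2 * y * (lam + 1)) := by gcongr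
      _ = 576 * (q ^ 2 * (y ^ 5 * (y ^ (40 * (w + 1))) ^ 2)) * (lam + 1) := by ring
      _ = 576 * (q ^ 2 * y ^ (5 + 40 * (w + 1) * 2)) * (lam + 1) := by rw [← pow_mul, ← pow_add]
      _ ≤ q ^ 10 * (q ^ 2 * y ^ (85 * (w + 1))) * (lam + 1) := by
          refine Nat.mul_le_mul_right _ (Nat.mul_le_mul (by omega) (Nat.mul_le_mul_left _ ?_))
          exact Nat.pow_le_pow_right (by omega) (by omega)
      _ = q ^ 12 * y ^ (85 * (w + 1)) * (lam + 1) := by ring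

/-- Unate DNF formulas of width `w` are learnable from
`poly(1/ε) * (2 ^ w * log (1/ε)) ^ O(w) * log (n / δ)` uniform random examples, in time polynomial
in the size of the examples. -/
theorem mainN :
    ∃ A : (ℕ × ℕ) × List (List Bool × Bool) → List (List (ℕ × Bool)), PTime A ∧
      ∃ e : ℕ, ∀ (n w a b : ℕ) (F : List (List (ℕ × Bool))), 1 ≤ a → 1 ≤ b →
        (∀ t ∈ F, t.length ≤ w) → (∀ t ∈ F, ∀ l ∈ t, l.1 < n) → Unate F →
        ∀ m : ℕ, (a + 1) ^ e * (2 ^ w * (Nat.log 2 a + 2)) ^ (e * w) *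
            (Nat.log 2 (n + b) + 1) ≤ m →
          Succeeds (fun S => A ((w, a), S)) n m F (1 / a) (1 / b) := by
  classical
  obtain ⟨e, he⟩ : ∃ e : ℕ, 170 ≤ e := ⟨170, le_rfl⟩
  refine ⟨learnN, PTime.of_poly learnN_poly, e, ?_⟩
  intro n w a b F ha hb htw hF hun m hm
  set s := a.bits.length with hs
  have hs0 : s = Nat.size a := by rw [hs, Nat.size_eq_bits_len]
  have hs1 : 1 ≤ s := by
    rw [hs0]; exact Nat.size_pos.2 ha
  have hsa : s ≤ a := by rw [hs0]; exact Nat.size_le.2 Nat.lt_two_pow_self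
  have has : a ≤ 2 ^ s := by rw [hs0]; exact (Nat.lt_size_self a).le
  have hslog : s = Nat.log 2 a + 1 := by
    rw [hs0]
    apply le_antisymm
    · exact Nat.size_le.2 (Nat.lt_pow_succ_log_self (by norm_num) a)
    · rw [Nat.succ_le_iff, Nat.lt_size]
      exact Nat.pow_log_le_self 2 (by omega)
  set y := 2 ^ w * (s + 1) with hy
  have hm' : (a + 1) ^ e * y ^ (e * w) * (Nat.log 2 (n + b) + 1) ≤ m := by
    rw [hy, hslog]; exact hm
  set u := (w + 1) * (2 * 2 ^ w) with hu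
  set K := a * y ^ (40 * (w + 1)) with hK
  set ℓ := 8 * u ^ 2 * (Nat.log 2 (2 * K) + 1) with hℓ
  obtain ⟨k1, k2, k3⟩ := num_K w a s y u K ℓ has hs1 hy hu hK hℓ
  obtain ⟨c1, c2, c3, c4⟩ := num_mN n w a b s y u K ℓ m e he ha hb hsa hs1 k1 k2 hy hK hm'
  have hy1 : 1 ≤ y := Nat.succ_le_of_lt (by rw [hy]; positivity)
  have hm0 : 0 < m := lt_of_lt_of_le (Nat.pow_pos (by norm_num)) c2
  have hwm : w ≤ m := Nat.lt_two_pow_self.le.trans c2
  have hu1 : 1 ≤ u := Nat.succ_le_of_lt (by rw [hu]; positivity)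
  have hK1 : 1 ≤ K := by rw [hK]; exact Nat.mul_pos ha (Nat.pow_pos hy1)
  have hu' : (1 : ℝ) ≤ u := by exact_mod_cast hu1
  have hK' : (1 : ℝ) ≤ K := by exact_mod_cast hK1
  clear_value ℓ K u y
  set τ : ℝ := 1 / (12 * u * K) with hτ
  have hτ0 : 0 < τ := by positivity
  have hτm : ((w : ℝ) + 1) * (Nat.log 2 (2 * n + 1) + 1) + (Nat.log 2 b + 2) ≤
      m * τ ^ 2 / 2 := by
    have h1 : (2 * (12 * (u : ℝ) * K) ^ 2 * ((w + 1) * (Nat.log 2 (2 * n + 1) + 1) +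
      (Nat.log 2 b + 2))) ≤ m := by exact_mod_cast c4
    rw [hτ, one_div, inv_pow, ← div_eq_mul_inv, div_div, le_div_iff₀ (by positivity)]
    linarith
  refine (samp' m b w F τ hb hτ0 hτm).trans ?_
  refine Nat.cast_le.2 (card_le_card fun X hX => ?_)
  simp only [mem_filter, mem_univ, true_and] at hX ⊢
  have hG : GS w n m F X u K τ := by
    refine ⟨hm0, hK1, hu1, hτ0, ?_, hX⟩
    rw [hτ]
    exact le_of_eq (by field_simp)
  have hfin := hG.final ℓ a ha hℓ c3 k3 hu hF hun htw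
  have e1 : examples F X = smp F X := rfl
  have e2 : (smp F X).length = m := by unfold smp; simp
  have e3 : learnN ((w, a), smp F X) = lrnN w u K (smp F X) := by
    unfold learnN
    simp only [e2]
    rw [min_eq_left hwm, cpw_eq 2 m w (by norm_num) c2, ← hs, ← hy,
      cpw_eq y m _ hy1 c1, ← hK, ← hu]
  rw [e1, e3]
  exact hfin

end Pool.Agent.K9h49.NW
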