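import Pool.Agent.K9h49.NW.Ana

/-!
# Unate formulas of width `w` are learnable from uniform random examples
-/

namespace Pool.Agent.K9h49.NW

open Finset Pool.Agent.Helper91K9.DL Pool.Agent.K9h49.DN Pool.Agent.NPC
  Pool.Agent.H424R2.PPAD

variable {n m : ℕ} {F : List (List (ℕ × Bool))} {X : Fin m → Cube n} {w u K : ℕ} {τ : ℝ}

theorem nwl_len (u K m ℓ : ℕ) (neg : List (List Bool)) (ls : List (ℕ × Bool))
    (cur : List (List (ℕ × Bool)))
    (h : ∀ ρ ∈ cur, m < K * cov neg ρ → (bia u neg ls ρ).length ≤ ℓ) :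
    (nwl u K m neg ls cur).length ≤ cur.length * (1 + ℓ) := by
  have key : ∀ c : List (List (ℕ × Bool)),
      (∀ ρ ∈ c, m < K * cov neg ρ → (bia u neg ls ρ).length ≤ ℓ) →
      ((c.filter fun ρ => decide (m < K * cov neg ρ)).flatMap fun ρ =>
        (bia u neg ls ρ).map (· :: ρ)).length ≤ c.length * ℓ := by
    intro c
    induction c with
    | nil => simp
    | cons ρ c ih =>
      intro hc
      have h1 := ih fun ρ' hρ' => hc ρ' (List.mem_cons_of_mem _ hρ')
      by_cases h2 : m < K * cov neg ρ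
      · rw [List.filter_cons_of_pos (by simpa using h2), List.flatMap_cons, List.length_append,
          List.length_map, List.length_cons]
        have h3 := hc ρ (by simp) h2
        linarith
      · rw [List.filter_cons_of_neg (by simpa using h2), List.length_cons]
        linarith
  unfold nwl
  rw [List.length_append]
  have := key cur h
  linarith

/-- The cap is never reached. -/
theorem GS.cdn_bound (h : GS w n m F X u K τ) (ℓ : ℕ)
    (hℓ : ℓ = 8 * u ^ 2 * (Nat.log 2 (2 * K) + 1)) (hB : (1 + ℓ) ^ w ≤ m) : ∀ j ≤ w,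
    (cdn u K m m (negs (smp F X)) (lits n) j).length ≤ (1 + ℓ) ^ j := by
  intro j
  induction j with
  | zero => intro _; simp [cdn]
  | succ j ih =>
    intro hj
    have h1 := ih (by omega)
    rw [cdn_succ]
    unfold nstep
    have h2 := nwl_len u K m ℓ (negs (smp F X)) (lits n)
      (cdn u K m m (negs (smp F X)) (lits n) j) (fun ρ hρ hc => by
        rw [hℓ]
        refine h.bia_le ρ (fun l hl => ?_)
          ((cdn_lits _ _ _ _ _ _ _ ρ hρ).1.trans (by omega)) hc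
        exact lits_lt n l ((cdn_lits _ _ _ _ _ _ _ ρ hρ).2 l hl))
    have h3 : (cdn u K m m (negs (smp F X)) (lits n) j).length * (1 + ℓ) ≤ (1 + ℓ) ^ (j + 1) := by
      rw [pow_succ]
      exact Nat.mul_le_mul_right _ h1
    have h4 : (1 + ℓ) ^ (j + 1) ≤ m := (Nat.pow_le_pow_right (by omega) hj).trans hB
    rw [if_pos (h2.trans (h3.trans h4))]
    exact h2.trans h3

theorem GS.cdn_next (h : GS w n m F X u K τ) (ℓ : ℕ)
    (hℓ : ℓ = 8 * u ^ 2 * (Nat.log 2 (2 * K) + 1)) (hB : (1 + ℓ) ^ w ≤ m) (j : ℕ) (hj : j < w) :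
    cdn u K m m (negs (smp F X)) (lits n) (j + 1) =
      nwl u K m (negs (smp F X)) (lits n) (cdn u K m m (negs (smp F X)) (lits n) j) := by
  have h1 := h.cdn_bound ℓ hℓ hB j hj.le
  rw [cdn_succ]
  unfold nstep
  have h2 := nwl_len u K m ℓ (negs (smp F X)) (lits n)
    (cdn u K m m (negs (smp F X)) (lits n) j) (fun ρ hρ hc => by
      rw [hℓ]
      refine h.bia_le ρ (fun l hl => ?_)
        ((cdn_lits _ _ _ _ _ _ _ ρ hρ).1.trans (by omega)) hc
      exact lits_lt n l ((cdn_lits _ _ _ _ _ _ _ ρ hρ).2 l hl))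
  have h3 : (cdn u K m m (negs (smp F X)) (lits n) j).length * (1 + ℓ) ≤ (1 + ℓ) ^ (j + 1) := by
    rw [pow_succ]
    exact Nat.mul_le_mul_right _ h1
  have h4 : (1 + ℓ) ^ (j + 1) ≤ m := (Nat.pow_le_pow_right (by omega) hj).trans hB
  rw [if_pos (h2.trans (h3.trans h4))]

/-- Every term is covered by a candidate. -/
theorem GS.cover (h : GS w n m F X u K τ) (ℓ : ℕ)
    (hℓ : ℓ = 8 * u ^ 2 * (Nat.log 2 (2 * K) + 1)) (hB : (1 + ℓ) ^ w ≤ m)
    (hw : u = (w + 1) * (2 * 2 ^ w))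
    (hF : ∀ t ∈ F, ∀ l ∈ t, l.1 < n) (hun : Unate F) (t : List (ℕ × Bool)) (ht : t ∈ F)
    (htw : t.length ≤ w) : ∀ j ≤ w,
    (∃ ρ ∈ cdn u K m m (negs (smp F X)) (lits n) j, UU n ρ ⊆ UU n t ∧
      K * cov (negs (smp F X)) ρ ≤ m) ∨
    (∃ ρ ∈ cdn u K m m (negs (smp F X)) (lits n) j, UU n ρ ⊆ UU n t ∧ (UU n ρ).card = j) := by
  classical
  intro j
  induction j with
  | zero =>
    intro _
    right
    have e : UU n ([] : List (ℕ × Bool)) = ∅ := by ext l; simp [mem_UU]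
    refine ⟨[], by simp [cdn], ?_, ?_⟩
    · rw [e]; exact empty_subset _
    · rw [e]; rfl
  | succ j ih =>
    intro hj
    rw [h.cdn_next ℓ hℓ hB j hj]
    rcases ih (by omega) with ⟨ρ, h1, h2, h3⟩ | ⟨ρ, h1, h2, h3⟩
    · left
      exact ⟨ρ, mem_nwl.2 (Or.inl h1), h2, h3⟩
    · by_cases hc : m < K * cov (negs (smp F X)) ρ
      · right
        obtain ⟨l, h4, h5, h6⟩ := h.exists_sel hw hF hun t ht htw ρ h2
          (fun l hl => lits_lt n l ((cdn_lits _ _ _ _ _ _ _ ρ h1).2 l hl))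
          ((cdn_lits _ _ _ _ _ _ _ ρ h1).1.trans (by omega)) hc
        refine ⟨((l.1 : ℕ), l.2) :: ρ, mem_nwl.2 (Or.inr ⟨ρ, h1, hc, _, h6, rfl⟩), ?_, ?_⟩
        · rw [UU_cons]
          intro l' hl'
          rcases mem_insert.1 hl' with rfl | hl'
          · exact h4
          · exact h2 hl'
        · rw [UU_cons, card_insert_of_notMem h5, h3]
      · left
        exact ⟨ρ, mem_nwl.2 (Or.inl h1), h2, not_lt.1 hc⟩

/-- The hypothesis on a good sample. -/
theorem GS.final (h : GS w n m F X u K τ) (ℓ a : ℕ) (ha : 1 ≤ a)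
    (hℓ : ℓ = 8 * u ^ 2 * (Nat.log 2 (2 * K) + 1)) (hB : (1 + ℓ) ^ w ≤ m)
    (hKa : 2 * a * (1 + ℓ) ^ w ≤ K)
    (hw : u = (w + 1) * (2 * 2 ^ w))
    (hF : ∀ t ∈ F, ∀ l ∈ t, l.1 < n) (hun : Unate F) (htw : ∀ t ∈ F, t.length ≤ w) :
    err n (lrnN w u K (smp F X)) F ≤ 1 / a := by
  classical
  have hm : (0 : ℝ) < m := by exact_mod_cast h.hm
  have hK : (1 : ℝ) ≤ K := by exact_mod_cast h.hK
  have hu : (1 : ℝ) ≤ u := by exact_mod_cast h.hu
  have ha' : (1 : ℝ) ≤ a := by exact_mod_cast ha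
  have h0 := h.hτ0
  have hτK : τ ≤ 1 / K := by
    rw [le_div_iff₀ (by positivity)]
    have h1 : τ * K * 1 ≤ τ * K * (12 * u) :=
      mul_le_mul_of_nonneg_left (by linarith) (by positivity)
    have h2 := h.hτ
    linarith
  have e2 : (smp F X).length = m := by unfold smp; simp
  have eH : lrnN w u K (smp F X) = (cdn u K m m (negs (smp F X)) (lits n) w).filter fun ρ =>
      decide (K * cov (negs (smp F X)) ρ ≤ m) := by
    unfold lrnN
    rw [nvars_smp F X h.hm, e2]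
  set H := lrnN w u K (smp F X) with hH
  have hHm : ∀ ρ ∈ H, ρ ∈ cdn u K m m (negs (smp F X)) (lits n) w ∧
      K * cov (negs (smp F X)) ρ ≤ m := by
    intro ρ hρ
    rw [eH, List.mem_filter, decide_eq_true_iff] at hρ
    exact hρ
  have hHlt : ∀ ρ ∈ H, ∀ l ∈ ρ, l.1 < n := fun ρ hρ l hl =>
    lits_lt n l ((cdn_lits _ _ _ _ _ _ _ ρ (hHm ρ hρ).1).2 l hl)
  have hHlen : H.length ≤ (1 + ℓ) ^ w := by
    rw [eH]
    exact (List.length_filter_le _ _).trans (h.cdn_bound ℓ hℓ hB w le_rfl)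
  -- the formula implies the hypothesis
  have hcov : ∀ x, ff n F x → ff n H x := by
    intro x hx
    rw [ff_iff F hF] at hx
    obtain ⟨t, ht, hs⟩ := hx
    rw [ff_iff H hHlt]
    have h1 : ∃ ρ ∈ cdn u K m m (negs (smp F X)) (lits n) w, UU n ρ ⊆ UU n t ∧
        K * cov (negs (smp F X)) ρ ≤ m := by
      rcases h.cover ℓ hℓ hB hw hF hun t ht (htw t ht) w le_rfl with h1 | ⟨ρ, h1, h2, h3⟩
      · exact h1
      · refine ⟨ρ, h1, h2, ?_⟩
        have h4 : (UU n t).card ≤ w := (UU_card t).trans (htw t ht)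
        have h5 : UU n ρ = UU n t := eq_of_subset_of_card_le h2 (by omega)
        have h6 : PP (NG (n := n) F ρ) = 0 := by
          refine PP_false _ fun x hx => hx.1 ?_
          rw [ff_iff F hF]
          exact ⟨t, ht, by rw [← h5]; exact hx.2⟩
        have h7 := (abs_le.1 (h.hc ρ (fun l hl =>
          lits_lt n l ((cdn_lits _ _ _ _ _ _ _ ρ h1).2 l hl))
          ((cdn_lits _ _ _ _ _ _ _ ρ h1).1.trans (by omega)))).2
        rw [h6, mul_zero, sub_zero] at h7
        have h8 : (K : ℝ) * cov (negs (smp F X)) ρ ≤ m := by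
          calc (K : ℝ) * cov (negs (smp F X)) ρ ≤ K * (m * τ) :=
                mul_le_mul_of_nonneg_left h7 (by positivity)
            _ ≤ K * (m * (1 / K)) := by
                refine mul_le_mul_of_nonneg_left (mul_le_mul_of_nonneg_left hτK hm.le) ?_
                positivity
            _ = m := by field_simp
        exact_mod_cast h8
    obtain ⟨ρ, h1, h2, h3⟩ := h1
    refine ⟨ρ, ?_, satL_mono h2 hs⟩
    rw [eH, List.mem_filter, decide_eq_true_iff]
    exact ⟨h1, h3⟩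
  -- every part of the hypothesis is almost an implicant
  have hpart : ∀ ρ ∈ H, PP (fun x => ¬ ff n F x ∧ satL (UU n ρ) x) ≤ 2 / K := by
    intro ρ hρ
    have h7 := (abs_le.1 (h.hc ρ (hHlt ρ hρ)
      ((cdn_lits _ _ _ _ _ _ _ ρ (hHm ρ hρ).1).1.trans (by omega)))).1
    have h8 : (K : ℝ) * cov (negs (smp F X)) ρ ≤ m := by exact_mod_cast (hHm ρ hρ).2
    have h9 : (cov (negs (smp F X)) ρ : ℝ) ≤ m * (1 / K) := by
      rw [mul_one_div, le_div_iff₀ (by positivity)]
      linarith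
    have h10 : (m : ℝ) * PP (NG (n := n) F ρ) ≤ m * (2 / K) := by
      have h11 : (m : ℝ) * τ ≤ m * (1 / K) := mul_le_mul_of_nonneg_left hτK hm.le
      have h12 : (m : ℝ) * (2 / K) = m * (1 / K) + m * (1 / K) := by ring
      linarith
    exact le_of_mul_le_mul_left h10 hm
  have h1 := PP_list (fun x => ¬ ff n F x) (2 / K) H hpart
  rw [err_eq]
  have h2 : PP (fun x : Cube n => dnfVal H (List.ofFn x) ≠ dnfVal F (List.ofFn x)) ≤
      PP (fun x => ¬ ff n F x ∧ ∃ t ∈ H, satL (UU n t) x) := by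
    refine PP_mono fun x hx => ?_
    rw [← ff_iff H hHlt]
    have h3 := hcov x
    unfold ff at h3 ⊢
    cases h8 : dnfVal H (List.ofFn x) <;> cases h9 : dnfVal F (List.ofFn x)
    · exact absurd (h8.trans h9.symm) hx
    · rw [h9, h8] at h3; simp at h3
    · simp
    · exact absurd (h8.trans h9.symm) hx
  refine h2.trans (h1.trans ?_)
  have h3 : (H.length : ℝ) ≤ (1 + (ℓ : ℝ)) ^ w := by exact_mod_cast hHlen
  have h4 : 2 * (a : ℝ) * (1 + (ℓ : ℝ)) ^ w ≤ K := by exact_mod_cast hKa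
  calc (H.length : ℝ) * (2 / K) ≤ (1 + (ℓ : ℝ)) ^ w * (2 / K) :=
        mul_le_mul_of_nonneg_right h3 (by positivity)
    _ ≤ 1 / a := by
        rw [← mul_div_assoc, div_le_div_iff₀ (by positivity) (by positivity)]
        linarith

end Pool.Agent.K9h49.NW
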